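import Mathlib

/-!
Spread families with few traces: exponential moments of the heavy elements, and the second
moment.
-/

open Finset

namespace Pool.Agent.Helper17.VCS

variable {α : Type*} [DecidableEq α]

/-- the number of members which contain `T` -/
def deg (F : Finset (Finset α)) (T : Finset α) : ℕ := (F.filter (fun S => T ⊆ S)).card

/-- few traces -/
def Gr (F : Finset (Finset α)) (d : ℕ) : Prop :=
  ∀ Y : Finset α, (F.image (fun S => S ∩ Y)).card ≤ (1 + Y.card) ^ d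

/-- `R`-spread -/
def Spr (F : Finset (Finset α)) (R : ℝ) : Prop :=
  ∀ T : Finset α, (deg F T : ℝ) * R ^ T.card ≤ F.card

/-- the elements whose degree is at least `R ^ (-j)` -/
noncomputable def Yv (F : Finset (Finset α)) (R : ℝ) (j : ℕ) : Finset α :=
  (F.biUnion id).filter (fun x => (F.card : ℝ) ≤ (deg F {x} : ℝ) * R ^ j)

theorem exp_moment {F : Finset (Finset α)} {R : ℝ} (hR : 0 < R) (hsp : Spr F R) (Y : Finset α) :
    ∑ S ∈ F, R ^ (S ∩ Y).card ≤ (F.card : ℝ) * ((F.image (fun S => S ∩ Y)).card : ℝ) := by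
  classical
  rw [← sum_fiberwise_of_maps_to (s := F) (t := F.image (fun S => S ∩ Y)) (g := fun S => S ∩ Y)
    (fun S hS => mem_image_of_mem _ hS)]
  calc ∑ T ∈ F.image (fun S => S ∩ Y), ∑ S ∈ F with S ∩ Y = T, R ^ (S ∩ Y).card
      ≤ ∑ T ∈ F.image (fun S => S ∩ Y), (F.card : ℝ) := by
        refine sum_le_sum fun T _ => ?_
        have h1 : ∑ S ∈ F with S ∩ Y = T, R ^ (S ∩ Y).card =
            ((F.filter (fun S => S ∩ Y = T)).card : ℝ) * R ^ T.card := by
          rw [← nsmul_eq_mul, ← sum_const]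
          refine sum_congr rfl fun S hS => ?_
          rw [(mem_filter.1 hS).2]
        rw [h1]
        refine le_trans (mul_le_mul_of_nonneg_right ?_ (by positivity)) (hsp T)
        unfold deg
        have h2 : (F.filter (fun S => S ∩ Y = T)).card ≤ (F.filter (fun S => T ⊆ S)).card := by
          refine card_le_card fun S hS => ?_
          rw [mem_filter] at hS ⊢
          exact ⟨hS.1, hS.2 ▸ inter_subset_left⟩
        exact_mod_cast h2
    _ = (F.card : ℝ) * ((F.image (fun S => S ∩ Y)).card : ℝ) := by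
        rw [sum_const, nsmul_eq_mul, mul_comm]

/-- Jensen's inequality for powers. -/
theorem jensen {ι : Type*} (F : Finset ι) (hF : F.Nonempty) (f : ι → ℝ) (hf : ∀ S ∈ F, 0 ≤ f S)
    (n : ℕ) : ((∑ S ∈ F, f S) / F.card) ^ n ≤ (∑ S ∈ F, f S ^ n) / F.card := by
  have hc : (0 : ℝ) < F.card := by exact_mod_cast card_pos.2 hF
  have h := Real.pow_arith_mean_le_arith_mean_pow F (fun _ => (1 : ℝ) / F.card) f
    (fun i _ => by positivity) (by rw [sum_const, nsmul_eq_mul]; field_simp) hf n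
  have e1 : ∑ S ∈ F, (1 : ℝ) / F.card * f S = (∑ S ∈ F, f S) / F.card := by
    rw [← mul_sum]
    ring
  have e2 : ∑ S ∈ F, (1 : ℝ) / F.card * f S ^ n = (∑ S ∈ F, f S ^ n) / F.card := by
    rw [← mul_sum]
    ring
  rwa [e1, e2] at h

theorem exp_one_le : Real.exp 1 ≤ 3 := by
  have := Real.exp_one_lt_d9
  linarith

theorem div_pow_le (N d : ℕ) (hd : 1 ≤ d) : ((N : ℝ) / d) ^ d ≤ 3 ^ N := by
  have hd' : (0 : ℝ) < d := by exact_mod_cast hd
  have h1 : (N : ℝ) / d ≤ Real.exp ((N : ℝ) / d) := by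
    have := Real.add_one_le_exp ((N : ℝ) / d)
    linarith
  calc ((N : ℝ) / d) ^ d ≤ (Real.exp ((N : ℝ) / d)) ^ d :=
        pow_le_pow_left₀ (by positivity) h1 d
    _ = Real.exp N := by
        rw [← Real.exp_nat_mul]
        congr 1
        field_simp
    _ = (Real.exp 1) ^ N := by
        rw [← Real.exp_nat_mul, mul_one]
    _ ≤ 3 ^ N := pow_le_pow_left₀ (Real.exp_pos 1).le exp_one_le N

theorem one_add_pow_le (B : ℕ) (hB : 1 ≤ B) : (1 + 1 / (B : ℝ)) ^ B ≤ 3 := by
  have hB' : (0 : ℝ) < B := by exact_mod_cast hB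
  have h1 : 1 + 1 / (B : ℝ) ≤ Real.exp (1 / (B : ℝ)) := by
    have := Real.add_one_le_exp (1 / (B : ℝ))
    linarith
  calc (1 + 1 / (B : ℝ)) ^ B ≤ (Real.exp (1 / (B : ℝ))) ^ B :=
        pow_le_pow_left₀ (by positivity) h1 B
    _ = Real.exp 1 := by
        rw [← Real.exp_nat_mul]
        congr 1
        field_simp
    _ ≤ 3 := exp_one_le

theorem sum_card_inter_eq (F : Finset (Finset α)) (Y : Finset α) :
    ∑ S ∈ F, (S ∩ Y).card = ∑ x ∈ Y, deg F {x} := by
  classical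
  have h1 : ∀ S ∈ F, (S ∩ Y).card = ∑ x ∈ Y, if x ∈ S then 1 else 0 := by
    intro S _
    rw [inter_comm, ← filter_mem_eq_inter, card_filter]
  have h2 : ∀ x ∈ Y, deg F {x} = ∑ S ∈ F, if x ∈ S then 1 else 0 := by
    intro x _
    unfold deg
    rw [card_filter]
    refine sum_congr rfl fun S _ => ?_
    simp only [singleton_subset_iff]
  rw [sum_congr rfl h1, sum_congr rfl h2, sum_comm]

theorem card_Yv_mul (F : Finset (Finset α)) (R : ℝ) (j : ℕ) :
    ((Yv F R j).card : ℝ) * F.card ≤ R ^ j * ∑ S ∈ F, ((S ∩ Yv F R j).card : ℝ) := by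
  have h1 : ∑ S ∈ F, ((S ∩ Yv F R j).card : ℝ) = ∑ x ∈ Yv F R j, (deg F {x} : ℝ) := by
    exact_mod_cast sum_card_inter_eq F (Yv F R j)
  rw [h1, mul_sum, ← nsmul_eq_mul, ← sum_const]
  refine sum_le_sum fun x hx => ?_
  rw [mul_comm]
  exact (mem_filter.1 hx).2

/-- the average of the exponential moment -/
theorem av_exp {F : Finset (Finset α)} {R : ℝ} {d : ℕ} (hF : F.Nonempty) (hR : 0 < R)
    (hsp : Spr F R) (hg : Gr F d) (Y : Finset α) :
    (∑ S ∈ F, R ^ (S ∩ Y).card) / F.card ≤ (1 + (Y.card : ℝ)) ^ d := by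
  have hc : (0 : ℝ) < F.card := by exact_mod_cast card_pos.2 hF
  rw [div_le_iff₀ hc]
  refine (exp_moment hR hsp Y).trans ?_
  rw [mul_comm]
  refine mul_le_mul_of_nonneg_right ?_ hc.le
  exact_mod_cast hg Y

theorem card_Yv_le {F : Finset (Finset α)} {R : ℝ} {d : ℕ} (hF : F.Nonempty) (hR : 9 ≤ R)
    (hd : 1 ≤ d) (hRd : (d : ℝ) + 1 ≤ R) (hsp : Spr F R) (hg : Gr F d) (j : ℕ) :
    1 + ((Yv F R j).card : ℝ) ≤ R ^ (2 * (j + 1)) := by
  have hR0 : (0 : ℝ) < R := by linarith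
  have hc : (0 : ℝ) < F.card := by exact_mod_cast card_pos.2 hF
  have hd' : (0 : ℝ) < d := by exact_mod_cast hd
  set Y := Yv F R j with hY
  set s : ℝ := Real.sqrt (1 + (Y.card : ℝ)) with hs
  have hs2 : s ^ 2 = 1 + (Y.card : ℝ) := Real.sq_sqrt (by positivity)
  have hs1 : 1 ≤ s := by
    rw [hs]
    refine Real.one_le_sqrt.2 ?_
    have : (0 : ℝ) ≤ (Y.card : ℝ) := by positivity
    linarith
  have h1 : (∑ S ∈ F, (((S ∩ Y).card : ℝ) / d)) / F.card ≤ s := by
    refine le_of_pow_le_pow_left₀ (n := 2 * d) (by omega) (by linarith) ?_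
    refine (jensen F hF _ (fun S _ => by positivity) (2 * d)).trans ?_
    have h2 : (∑ S ∈ F, (((S ∩ Y).card : ℝ) / d) ^ (2 * d)) / F.card ≤
        (∑ S ∈ F, R ^ (S ∩ Y).card) / F.card := by
      refine div_le_div_of_nonneg_right (sum_le_sum fun S _ => ?_) hc.le
      calc (((S ∩ Y).card : ℝ) / d) ^ (2 * d) = ((((S ∩ Y).card : ℝ) / d) ^ d) ^ 2 := by
            rw [mul_comm, pow_mul]
        _ ≤ ((3 : ℝ) ^ (S ∩ Y).card) ^ 2 :=
            pow_le_pow_left₀ (by positivity) (div_pow_le _ _ hd) 2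
        _ = 9 ^ (S ∩ Y).card := by
            rw [← pow_mul, mul_comm, pow_mul]
            norm_num
        _ ≤ R ^ (S ∩ Y).card := pow_le_pow_left₀ (by norm_num) hR _
    refine h2.trans ((av_exp hF hR0 hsp hg Y).trans ?_)
    rw [← hs2, ← pow_mul]
  have h3 : ((Y.card : ℝ)) ≤ R ^ j * (d * s) := by
    have h4 := card_Yv_mul F R j
    rw [← hY] at h4
    have h5 : ∑ S ∈ F, ((S ∩ Y).card : ℝ) ≤ (d * s) * F.card := by
      rw [div_le_iff₀ hc, ← sum_div, div_le_iff₀ hd'] at h1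
      linarith
    have h6 : (Y.card : ℝ) * F.card ≤ R ^ j * ((d * s) * F.card) :=
      h4.trans (mul_le_mul_of_nonneg_left h5 (by positivity))
    have h7 : (Y.card : ℝ) * F.card ≤ (R ^ j * (d * s)) * F.card := by linarith
    exact le_of_mul_le_mul_right h7 hc
  have hRj : (1 : ℝ) ≤ R ^ j := one_le_pow₀ (by linarith)
  have h8 : s ≤ R ^ (j + 1) := by
    have h9 : s * s ≤ s * (1 + R ^ j * d) := by
      have : s * s = s ^ 2 := by ring
      rw [this, hs2]
      nlinarith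
    have h10 : s ≤ 1 + R ^ j * d := le_of_mul_le_mul_left h9 (by linarith)
    calc s ≤ 1 + R ^ j * d := h10
      _ ≤ R ^ j + R ^ j * d := by linarith
      _ = R ^ j * (d + 1) := by ring
      _ ≤ R ^ j * R := mul_le_mul_of_nonneg_left hRd (by positivity)
      _ = R ^ (j + 1) := by rw [pow_succ]
  calc 1 + ((Yv F R j).card : ℝ) = s ^ 2 := hs2.symm
    _ ≤ (R ^ (j + 1)) ^ 2 := pow_le_pow_left₀ (by linarith) h8 2
    _ = R ^ (2 * (j + 1)) := by rw [← pow_mul, mul_comm]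

theorem av_small {F : Finset (Finset α)} {R : ℝ} {d : ℕ} (hF : F.Nonempty) (hR : 9 ≤ R)
    (hd : 1 ≤ d) (hRd : (d : ℝ) + 1 ≤ R) (hsp : Spr F R) (hg : Gr F d) (j : ℕ) :
    ∑ S ∈ F, (1 + 1 / ((4 * d : ℕ) : ℝ)) ^ (S ∩ Yv F R j).card ≤
      (F.card : ℝ) * 3 ^ (j + 1) := by
  have hR0 : (0 : ℝ) < R := by linarith
  have hc : (0 : ℝ) < F.card := by exact_mod_cast card_pos.2 hF
  obtain ⟨l, hl1, hl2⟩ := exists_nat_pow_near (show (1 : ℝ) ≤ R by linarith)
    (show (1 : ℝ) < 3 by norm_num)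
  have hl : 1 ≤ l := by
    rcases Nat.eq_zero_or_pos l with h | h
    · subst h
      norm_num at hl2
      linarith
    · exact h
  set Y := Yv F R j with hY
  set B : ℕ := 4 * d with hB
  have hB1 : 1 ≤ B := by omega
  have h1 : (∑ S ∈ F, (1 + 1 / (B : ℝ)) ^ (S ∩ Y).card) / F.card ≤ 3 ^ (j + 1) := by
    refine le_of_pow_le_pow_left₀ (n := B * l) (by positivity) (by positivity) ?_
    refine (jensen F hF _ (fun S _ => by positivity) (B * l)).trans ?_
    have h2 : (∑ S ∈ F, ((1 + 1 / (B : ℝ)) ^ (S ∩ Y).card) ^ (B * l)) / F.card ≤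
        (∑ S ∈ F, R ^ (S ∩ Y).card) / F.card := by
      refine div_le_div_of_nonneg_right (sum_le_sum fun S _ => ?_) hc.le
      calc ((1 + 1 / (B : ℝ)) ^ (S ∩ Y).card) ^ (B * l)
          = (((1 + 1 / (B : ℝ)) ^ B) ^ l) ^ (S ∩ Y).card := by
            rw [← pow_mul, ← pow_mul, ← pow_mul]
            congr 1
            ring
        _ ≤ ((3 : ℝ) ^ l) ^ (S ∩ Y).card :=
            pow_le_pow_left₀ (by positivity)
              (pow_le_pow_left₀ (by positivity) (one_add_pow_le B hB1) l) _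
        _ ≤ R ^ (S ∩ Y).card := pow_le_pow_left₀ (by positivity) hl1 _
    refine h2.trans ((av_exp hF hR0 hsp hg Y).trans ?_)
    calc (1 + (Y.card : ℝ)) ^ d ≤ (R ^ (2 * (j + 1))) ^ d :=
          pow_le_pow_left₀ (by positivity) (card_Yv_le hF hR hd hRd hsp hg j) d
      _ ≤ (((3 : ℝ) ^ (l + 1)) ^ (2 * (j + 1))) ^ d :=
          pow_le_pow_left₀ (by positivity)
            (pow_le_pow_left₀ hR0.le hl2.le _) d
      _ = 3 ^ ((l + 1) * (2 * (j + 1)) * d) := by
          rw [← pow_mul, ← pow_mul]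
          congr 1
          ring
      _ ≤ 3 ^ ((j + 1) * (B * l)) := by
          refine pow_le_pow_right₀ (by norm_num) ?_
          have h3 : l + 1 ≤ 2 * l := by omega
          calc (l + 1) * (2 * (j + 1)) * d ≤ (2 * l) * (2 * (j + 1)) * d := by gcongr
            _ = (j + 1) * (B * l) := by rw [hB]; ring
      _ = ((3 : ℝ) ^ (j + 1)) ^ (B * l) := by rw [← pow_mul]
  rw [div_le_iff₀ hc] at h1
  linarith

/-- a nonempty `T` with positive degree is seen at some level -/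
theorem deg_le_sum {F : Finset (Finset α)} {R : ℝ} (hR : 9 ≤ R) (hsp : Spr F R)
    {J : ℕ} (hJ : (F.card : ℝ) < R ^ (J + 1)) {S T : Finset α} (hS : S ∈ F) (hT : T ⊆ S)
    (hT0 : T.Nonempty) :
    (deg F T : ℝ) ≤ ∑ j ∈ Icc 1 J, (F.card : ℝ) * (1 / R) ^ j *
      (if T.card ≤ j ∧ T ⊆ S ∩ Yv F R (j + 1) then 1 else 0) := by
  have hR0 : (0 : ℝ) < R := by linarith
  have hR1 : (1 : ℝ) < R := by linarith
  have hdeg : 1 ≤ deg F T := card_pos.2 ⟨S, mem_filter.2 ⟨hS, hT⟩⟩
  have hdeg' : (1 : ℝ) ≤ deg F T := by exact_mod_cast hdeg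
  have hsT := hsp T
  have hle : (1 : ℝ) ≤ (F.card : ℝ) / deg F T := by
    rw [le_div_iff₀ (by linarith), one_mul]
    have h1 : (1 : ℝ) ≤ R ^ T.card := one_le_pow₀ hR1.le
    nlinarith
  obtain ⟨j, hj1, hj2⟩ := exists_nat_pow_near hle hR1
  rw [le_div_iff₀ (by linarith)] at hj1
  rw [div_lt_iff₀ (by linarith)] at hj2
  have hTj : T.card ≤ j := by
    by_contra hcon
    have h1 : j + 1 ≤ T.card := by omega
    have h2 : R ^ (j + 1) ≤ R ^ T.card := pow_le_pow_right₀ hR1.le h1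
    have h3 : R ^ (j + 1) * deg F T ≤ R ^ T.card * deg F T :=
      mul_le_mul_of_nonneg_right h2 (by linarith)
    nlinarith
  have hj0 : 1 ≤ j := le_trans (card_pos.2 hT0) hTj
  have hjJ : j ≤ J := by
    by_contra hcon
    have h1 : J + 1 ≤ j := by omega
    have h2 : R ^ (J + 1) ≤ R ^ j := pow_le_pow_right₀ hR1.le h1
    have h3 : R ^ j * 1 ≤ R ^ j * deg F T := mul_le_mul_of_nonneg_left hdeg' (by positivity)
    linarith
  have hTY : T ⊆ S ∩ Yv F R (j + 1) := by
    intro x hx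
    refine mem_inter.2 ⟨hT hx, mem_filter.2 ⟨mem_biUnion.2 ⟨S, hS, hT hx⟩, ?_⟩⟩
    have h1 : deg F T ≤ deg F {x} := by
      unfold deg
      refine card_le_card fun U hU => ?_
      rw [mem_filter] at hU ⊢
      exact ⟨hU.1, singleton_subset_iff.2 (hU.2 hx)⟩
    have h2 : (deg F T : ℝ) ≤ deg F {x} := by exact_mod_cast h1
    have h3 : R ^ (j + 1) * deg F T ≤ R ^ (j + 1) * deg F {x} :=
      mul_le_mul_of_nonneg_left h2 (by positivity)
    linarith
  have h4 : (deg F T : ℝ) ≤ (F.card : ℝ) * (1 / R) ^ j := by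
    rw [one_div, inv_pow, ← div_eq_mul_inv, le_div_iff₀ (by positivity)]
    linarith
  calc (deg F T : ℝ) ≤ (F.card : ℝ) * (1 / R) ^ j *
        (if T.card ≤ j ∧ T ⊆ S ∩ Yv F R (j + 1) then 1 else 0) := by
        rw [if_pos ⟨hTj, hTY⟩, mul_one]
        exact h4
    _ ≤ ∑ j ∈ Icc 1 J, (F.card : ℝ) * (1 / R) ^ j *
        (if T.card ≤ j ∧ T ⊆ S ∩ Yv F R (j + 1) then 1 else 0) := by
        refine single_le_sum (f := fun j => (F.card : ℝ) * (1 / R) ^ j *
          (if T.card ≤ j ∧ T ⊆ S ∩ Yv F R (j + 1) then 1 else 0)) (fun i _ => ?_)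
          (mem_Icc.2 ⟨hj0, hjJ⟩)
        positivity

omit [DecidableEq α] in
/-- subsets with at most `j` elements -/
theorem sum_small_subsets (X : Finset α) {t B : ℝ} (hB : 0 < B) (htB : 1 ≤ t * B) (j : ℕ) :
    ∑ T ∈ X.powerset, (if T.card ≤ j then t ^ T.card else 0) ≤
      (t * B) ^ j * (1 + 1 / B) ^ X.card := by
  have h1 : ∀ T ∈ X.powerset, (if T.card ≤ j then t ^ T.card else 0) ≤
      (t * B) ^ j * (1 / B) ^ T.card := by
    intro T _
    have h0 : 0 ≤ (t * B) ^ j := by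
      have : (0 : ℝ) ≤ t * B := by linarith
      positivity
    split_ifs with h
    · have h2 : t ^ T.card = (t * B) ^ T.card * (1 / B) ^ T.card := by
        rw [← mul_pow]
        congr 1
        field_simp
      rw [h2]
      exact mul_le_mul_of_nonneg_right (pow_le_pow_right₀ htB h) (by positivity)
    · positivity
  refine (sum_le_sum h1).trans ?_
  rw [← mul_sum]
  refine mul_le_mul_of_nonneg_left ?_ ?_
  · have h3 := Finset.sum_pow_mul_eq_add_pow (1 / B) (1 : ℝ) X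
    simp only [one_pow, mul_one] at h3
    rw [h3, add_comm]
  · have : (0 : ℝ) ≤ t * B := by linarith
    positivity

theorem geom_tail {x : ℝ} (hx0 : 0 ≤ x) (hx : x ≤ 1 / 10) (J : ℕ) :
    ∑ j ∈ Icc 1 J, x ^ j ≤ 1 / 9 := by
  have h : ∀ J : ℕ, ∑ j ∈ Icc 1 J, x ^ j ≤ 1 / 9 - (1 / 9) * (1 / 10) ^ J := by
    intro J
    induction J with
    | zero => simp
    | succ n ih =>
      rw [sum_Icc_succ_top (by omega)]
      have h1 : x ^ (n + 1) ≤ (1 / 10) ^ (n + 1) := pow_le_pow_left₀ hx0 hx _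
      have e1 : (1 / 10 : ℝ) ^ (n + 1) = (1 / 10) ^ n * (1 / 10) := pow_succ _ _
      rw [e1] at h1 ⊢
      linarith
  have h1 := h J
  have : (0 : ℝ) ≤ (1 / 9) * (1 / 10) ^ J := by positivity
  linarith

/-- **Second moment.** -/
theorem second_moment {F : Finset (Finset α)} {R t : ℝ} {d : ℕ} (hF : F.Nonempty)
    (hd : 1 ≤ d) (ht : 1 ≤ t) (hR : 120 * d * t ≤ R) (hsp : Spr F R) (hg : Gr F d) :
    ∑ S ∈ F, ∑ S' ∈ F, (1 + t) ^ (S ∩ S').card ≤ 2 * (F.card : ℝ) ^ 2 := by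
  have hd' : (1 : ℝ) ≤ d := by exact_mod_cast hd
  have hdt : (d : ℝ) ≤ d * t := by nlinarith
  have hR9 : 9 ≤ R := by nlinarith
  have hR0 : (0 : ℝ) < R := by linarith
  have hRd : (d : ℝ) + 1 ≤ R := by nlinarith
  have hc : (0 : ℝ) < F.card := by exact_mod_cast card_pos.2 hF
  -- expansion
  have h1 : ∑ S ∈ F, ∑ S' ∈ F, (1 + t) ^ (S ∩ S').card =
      ∑ S ∈ F, ∑ T ∈ S.powerset, t ^ T.card * (deg F T : ℝ) := by
    refine sum_congr rfl fun S _ => ?_
    have h2 : ∀ S' ∈ F, (1 + t) ^ (S ∩ S').card =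
        ∑ T ∈ S.powerset, if T ⊆ S' then t ^ T.card else 0 := by
      intro S' _
      have h3 := Finset.sum_pow_mul_eq_add_pow t (1 : ℝ) (S ∩ S')
      simp only [one_pow, mul_one] at h3
      rw [add_comm, ← h3, ← sum_filter]
      refine sum_congr ?_ fun _ _ => rfl
      ext T
      rw [mem_powerset, mem_filter, mem_powerset, subset_inter_iff]
    rw [sum_congr rfl h2, sum_comm]
    refine sum_congr rfl fun T _ => ?_
    rw [← sum_filter, sum_const, nsmul_eq_mul, mul_comm]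
    rfl
  -- a large J
  obtain ⟨J, hJ⟩ := pow_unbounded_of_one_lt (F.card : ℝ) (show (1 : ℝ) < R by linarith)
  have hJ' : (F.card : ℝ) < R ^ (J + 1) := by
    refine hJ.trans_le (pow_le_pow_right₀ (by linarith) (by omega))
  set B : ℝ := ((4 * d : ℕ) : ℝ) with hB
  have hBd : B = 4 * d := by rw [hB]; push_cast; ring
  have hB0 : 0 < B := by rw [hBd]; positivity
  have htB : 1 ≤ t * B := by rw [hBd]; nlinarith
  have h4 : ∀ S ∈ F, ∑ T ∈ S.powerset, t ^ T.card * (deg F T : ℝ) ≤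
      F.card + ∑ j ∈ Icc 1 J, (F.card : ℝ) * (1 / R) ^ j *
        ((t * B) ^ j * (1 + 1 / B) ^ (S ∩ Yv F R (j + 1)).card) := by
    intro S hS
    have h5 : ∑ T ∈ S.powerset, t ^ T.card * (deg F T : ℝ) ≤
        ∑ T ∈ S.powerset, ((if T = ∅ then (F.card : ℝ) else 0) +
          ∑ j ∈ Icc 1 J, (F.card : ℝ) * (1 / R) ^ j *
            (if T ⊆ S ∩ Yv F R (j + 1) then (if T.card ≤ j then t ^ T.card else 0) else 0)) := by
      refine sum_le_sum fun T hT => ?_
      have hTS := mem_powerset.1 hT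
      by_cases h0 : T = ∅
      · subst h0
        rw [if_pos rfl]
        have h6 : deg F ∅ = F.card := by
          unfold deg
          rw [filter_true_of_mem fun _ _ => empty_subset _]
        rw [h6, card_empty, pow_zero, one_mul]
        have h7 : 0 ≤ ∑ j ∈ Icc 1 J, (F.card : ℝ) * (1 / R) ^ j *
            (if (∅ : Finset α) ⊆ S ∩ Yv F R (j + 1) then
              (if 0 ≤ j then 1 else 0) else 0) := by
          refine sum_nonneg fun j _ => ?_
          positivity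
        linarith
      · rw [if_neg h0, zero_add]
        have h6 := deg_le_sum hR9 hsp hJ' hS hTS (nonempty_iff_ne_empty.2 h0)
        calc t ^ T.card * (deg F T : ℝ) ≤ t ^ T.card * ∑ j ∈ Icc 1 J, (F.card : ℝ) * (1 / R) ^ j *
              (if T.card ≤ j ∧ T ⊆ S ∩ Yv F R (j + 1) then 1 else 0) :=
              mul_le_mul_of_nonneg_left h6 (by positivity)
          _ = ∑ j ∈ Icc 1 J, (F.card : ℝ) * (1 / R) ^ j *
            (if T ⊆ S ∩ Yv F R (j + 1) then (if T.card ≤ j then t ^ T.card else 0) else 0) := by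
              rw [mul_sum]
              refine sum_congr rfl fun j _ => ?_
              by_cases ha : T.card ≤ j <;> by_cases hb : T ⊆ S ∩ Yv F R (j + 1) <;>
                simp [ha, hb]
              ring
    refine h5.trans ?_
    rw [sum_add_distrib]
    refine add_le_add ?_ ?_
    · rw [sum_ite_eq' S.powerset ∅, if_pos (empty_mem_powerset S)]
    · rw [sum_comm]
      refine sum_le_sum fun j _ => ?_
      rw [← mul_sum]
      refine mul_le_mul_of_nonneg_left ?_ (by positivity)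
      have h8 : ∑ T ∈ S.powerset, (if T ⊆ S ∩ Yv F R (j + 1) then
          (if T.card ≤ j then t ^ T.card else 0) else 0) =
          ∑ T ∈ (S ∩ Yv F R (j + 1)).powerset, (if T.card ≤ j then t ^ T.card else 0) := by
        rw [← sum_filter]
        refine sum_congr ?_ fun _ _ => rfl
        ext T
        rw [mem_filter, mem_powerset, mem_powerset]
        exact ⟨fun h => h.2, fun h => ⟨h.trans inter_subset_left, h⟩⟩
      rw [h8]
      exact sum_small_subsets _ hB0 htB j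
  rw [h1]
  refine (sum_le_sum h4).trans ?_
  rw [sum_add_distrib, sum_const, nsmul_eq_mul, sum_comm]
  have h9 : ∑ j ∈ Icc 1 J, ∑ S ∈ F, (F.card : ℝ) * (1 / R) ^ j *
      ((t * B) ^ j * (1 + 1 / B) ^ (S ∩ Yv F R (j + 1)).card) ≤
      (F.card : ℝ) ^ 2 * (9 * ∑ j ∈ Icc 1 J, (3 * (t * B) / R) ^ j) := by
    rw [mul_sum, mul_sum]
    refine sum_le_sum fun j _ => ?_
    have h10 := av_small hF hR9 hd hRd hsp hg (j + 1)
    rw [← hB] at h10
    calc ∑ S ∈ F, (F.card : ℝ) * (1 / R) ^ j *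
          ((t * B) ^ j * (1 + 1 / B) ^ (S ∩ Yv F R (j + 1)).card)
        = (F.card : ℝ) * (1 / R) ^ j * (t * B) ^ j *
          ∑ S ∈ F, (1 + 1 / B) ^ (S ∩ Yv F R (j + 1)).card := by
          rw [mul_sum]
          refine sum_congr rfl fun S _ => ?_
          ring
      _ ≤ (F.card : ℝ) * (1 / R) ^ j * (t * B) ^ j * ((F.card : ℝ) * 3 ^ (j + 1 + 1)) :=
          mul_le_mul_of_nonneg_left h10 (by positivity)
      _ = (F.card : ℝ) ^ 2 * (9 * (3 * (t * B) / R) ^ j) := by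
          have e1 : (3 * (t * B) / R) ^ j = 3 ^ j * (t * B) ^ j * (1 / R) ^ j := by
            rw [← mul_pow, ← mul_pow]
            congr 1
            ring
          rw [e1]
          ring
  have hx : 3 * (t * B) / R ≤ 1 / 10 := by
    rw [div_le_iff₀ hR0, hBd]
    linarith
  have hx0 : 0 ≤ 3 * (t * B) / R := by positivity
  have h11 := geom_tail hx0 hx J
  have h12 : (F.card : ℝ) ^ 2 * (9 * ∑ j ∈ Icc 1 J, (3 * (t * B) / R) ^ j) ≤
      (F.card : ℝ) ^ 2 * 1 := mul_le_mul_of_nonneg_left (by linarith) (by positivity)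
  nlinarith

end Pool.Agent.Helper17.VCS
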