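import Mathlib
import Pool.Agent.Helper17.VCS.Core

/-!
Spread families with few traces contain many pairwise disjoint members: a second moment for
random colourings.
-/

open Finset

namespace Pool.Agent.Helper17.VCS

section Colour

variable {α : Type*} [DecidableEq α] [Fintype α]

/-- the number of colourings which are constant `i` on `S` -/
theorem card_const (m : ℕ) (i : Fin m) (S : Finset α) :
    ((univ.filter (fun c : α → Fin m => ∀ x ∈ S, c x = i)).card : ℝ) * (m : ℝ) ^ S.card =
      (m : ℝ) ^ Fintype.card α := by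
  classical
  have h1 : univ.filter (fun c : α → Fin m => ∀ x ∈ S, c x = i) =
      Fintype.piFinset (fun x => if x ∈ S then {i} else (univ : Finset (Fin m))) := by
    ext c
    rw [mem_filter, Fintype.mem_piFinset]
    constructor
    · rintro ⟨-, h⟩ x
      by_cases hx : x ∈ S
      · rw [if_pos hx, mem_singleton]
        exact h x hx
      · rw [if_neg hx]
        exact mem_univ _
    · intro h
      refine ⟨mem_univ _, fun x hx => ?_⟩
      have := h x
      rwa [if_pos hx, mem_singleton] at this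
  rw [h1, Fintype.card_piFinset]
  have h2 : ∏ x, (if x ∈ S then {i} else (univ : Finset (Fin m))).card =
      ∏ x ∈ univ \ S, m := by
    rw [← prod_sdiff (subset_univ S)]
    have e1 : ∏ x ∈ S, (if x ∈ S then {i} else (univ : Finset (Fin m))).card = 1 := by
      refine prod_eq_one fun x hx => ?_
      rw [if_pos hx, card_singleton]
    have e2 : ∏ x ∈ univ \ S, (if x ∈ S then {i} else (univ : Finset (Fin m))).card =
        ∏ x ∈ univ \ S, m := by
      refine prod_congr rfl fun x hx => ?_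
      rw [if_neg (mem_sdiff.1 hx).2, card_univ, Fintype.card_fin]
    rw [e1, e2, mul_one]
  rw [h2, prod_const]
  push_cast
  rw [← pow_add]
  congr 1
  rw [card_sdiff_of_subset (subset_univ S), card_univ]
  have := card_le_univ S
  omega

/-- the weighted number of members of colour `i` -/
noncomputable def Zc (F : Finset (Finset α)) (m : ℕ) (i : Fin m) (c : α → Fin m) : ℝ :=
  ∑ S ∈ F, (m : ℝ) ^ S.card * (if ∀ x ∈ S, c x = i then 1 else 0)

theorem sum_Zc (F : Finset (Finset α)) (m : ℕ) (i : Fin m) :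
    ∑ c, Zc F m i c = (F.card : ℝ) * (m : ℝ) ^ Fintype.card α := by
  unfold Zc
  rw [sum_comm, ← nsmul_eq_mul, ← sum_const]
  refine sum_congr rfl fun S _ => ?_
  rw [← mul_sum, ← card_const m i S, ← sum_filter, sum_const, nsmul_eq_mul, mul_one, mul_comm]

theorem sum_Zc_sq (F : Finset (Finset α)) (m : ℕ) (hm : 0 < m) (i : Fin m) :
    ∑ c, Zc F m i c ^ 2 =
      (∑ S ∈ F, ∑ S' ∈ F, (m : ℝ) ^ (S ∩ S').card) * (m : ℝ) ^ Fintype.card α := by
  have hm' : (0 : ℝ) < m := by exact_mod_cast hm
  have h1 : ∀ c : α → Fin m, Zc F m i c ^ 2 = ∑ S ∈ F, ∑ S' ∈ F,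
      (m : ℝ) ^ S.card * (m : ℝ) ^ S'.card * (if ∀ x ∈ S ∪ S', c x = i then 1 else 0) := by
    intro c
    unfold Zc
    rw [pow_two, sum_mul_sum]
    refine sum_congr rfl fun S _ => sum_congr rfl fun S' _ => ?_
    have h2 : (∀ x ∈ S ∪ S', c x = i) ↔ (∀ x ∈ S, c x = i) ∧ (∀ x ∈ S', c x = i) := by
      constructor
      · intro h
        exact ⟨fun x hx => h x (mem_union_left _ hx), fun x hx => h x (mem_union_right _ hx)⟩
      · rintro ⟨h, h'⟩ x hx
        rcases mem_union.1 hx with hx | hx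
        · exact h x hx
        · exact h' x hx
    by_cases ha : ∀ x ∈ S, c x = i <;> by_cases hb : ∀ x ∈ S', c x = i
    · rw [if_pos ha, if_pos hb, if_pos (h2.2 ⟨ha, hb⟩)]
      ring
    · rw [if_pos ha, if_neg hb, if_neg (fun h => hb (h2.1 h).2)]
      ring
    · rw [if_neg ha, if_pos hb, if_neg (fun h => ha (h2.1 h).1)]
      ring
    · rw [if_neg ha, if_neg hb, if_neg (fun h => hb (h2.1 h).2)]
      ring
  simp only [h1]
  rw [sum_comm, sum_mul]
  refine sum_congr rfl fun S _ => ?_
  rw [sum_comm, sum_mul]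
  refine sum_congr rfl fun S' _ => ?_
  rw [← mul_sum, ← sum_filter, sum_const, nsmul_eq_mul, mul_one]
  have h3 := card_const m i (S ∪ S')
  have h4 : S.card + S'.card = (S ∪ S').card + (S ∩ S').card := (card_union_add_card_inter S S').symm
  rw [← pow_add, h4, pow_add, ← h3]
  ring

/-- For each colour, at least half of the colourings have a member of this colour. -/
theorem half_good {F : Finset (Finset α)} {R : ℝ} {d m : ℕ} (hF : F.Nonempty)
    (hd : 1 ≤ d) (hm : 2 ≤ m) (hR : 120 * d * ((m : ℝ) - 1) ≤ R) (hsp : Spr F R) (hg : Gr F d)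
    (i : Fin m) :
    (m : ℝ) ^ Fintype.card α ≤
      2 * ((univ.filter (fun c : α → Fin m => ∃ S ∈ F, ∀ x ∈ S, c x = i)).card : ℝ) := by
  classical
  have hm' : (2 : ℝ) ≤ m := by exact_mod_cast hm
  have hc : (0 : ℝ) < F.card := by exact_mod_cast card_pos.2 hF
  set G := univ.filter (fun c : α → Fin m => ∃ S ∈ F, ∀ x ∈ S, c x = i) with hG
  set N : ℝ := (m : ℝ) ^ Fintype.card α with hN
  have hN0 : 0 < N := by positivity
  have h2 := second_moment hF hd (t := (m : ℝ) - 1) (by linarith) hR hsp hg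
  have e : (1 : ℝ) + ((m : ℝ) - 1) = m := by ring
  rw [e] at h2
  have h3 := sum_Zc F m i
  have h4 := sum_Zc_sq F m (by omega) i
  -- `Z` vanishes outside `G`
  have h5 : ∑ c, Zc F m i c = ∑ c ∈ G, Zc F m i c := by
    symm
    refine sum_subset (subset_univ _) fun c _ hcG => ?_
    unfold Zc
    refine sum_eq_zero fun S hS => ?_
    rw [if_neg, mul_zero]
    intro h
    exact hcG (mem_filter.2 ⟨mem_univ _, S, hS, h⟩)
  have h6 : (∑ c ∈ G, Zc F m i c) ^ 2 ≤ (G.card : ℝ) * ∑ c ∈ G, Zc F m i c ^ 2 :=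
    sq_sum_le_card_mul_sum_sq
  have h7 : ∑ c ∈ G, Zc F m i c ^ 2 ≤ ∑ c, Zc F m i c ^ 2 :=
    sum_le_sum_of_subset_of_nonneg (subset_univ _) fun _ _ _ => sq_nonneg _
  rw [← h5, h3, ← hN] at h6
  rw [h4, ← hN] at h7
  have h8 : ((F.card : ℝ) * N) ^ 2 ≤ (G.card : ℝ) * (2 * (F.card : ℝ) ^ 2 * N) := by
    refine h6.trans (mul_le_mul_of_nonneg_left (h7.trans ?_) (by positivity))
    exact mul_le_mul_of_nonneg_right h2 hN0.le
  have h9 : ((F.card : ℝ) ^ 2 * N) * N ≤ ((F.card : ℝ) ^ 2 * N) * (2 * G.card) := by nlinarith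
  exact le_of_mul_le_mul_left h9 (by positivity)

/-- Some colouring has members of `r` colours. -/
theorem exists_colouring {F : Finset (Finset α)} {R : ℝ} {d r : ℕ} (hF : F.Nonempty)
    (hd : 1 ≤ d) (hr : 1 ≤ r) (hR : 240 * (d : ℝ) * r ≤ R) (hsp : Spr F R) (hg : Gr F d) :
    ∃ f : Fin r → Finset α, (∀ j, f j ∈ F) ∧ ∀ j j', j ≠ j' → Disjoint (f j) (f j') := by
  classical
  set m : ℕ := 2 * r with hm
  have hd' : (1 : ℝ) ≤ d := by exact_mod_cast hd
  have hmR : 120 * (d : ℝ) * ((m : ℝ) - 1) ≤ R := by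
    rw [hm]
    push_cast
    nlinarith
  have h1 := fun i : Fin m => half_good hF hd (by omega) hmR hsp hg i
  -- double counting
  have h2 : ∃ c : α → Fin m, r ≤ (univ.filter (fun i : Fin m => ∃ S ∈ F, ∀ x ∈ S, c x = i)).card := by
    by_contra hcon
    push Not at hcon
    have h3 : ∑ i : Fin m, ((univ.filter
        (fun c : α → Fin m => ∃ S ∈ F, ∀ x ∈ S, c x = i)).card : ℝ) =
        ∑ c : α → Fin m, ((univ.filter (fun i : Fin m => ∃ S ∈ F, ∀ x ∈ S, c x = i)).card : ℝ) := by
      have h4 : ∑ i : Fin m, (univ.filter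
        (fun c : α → Fin m => ∃ S ∈ F, ∀ x ∈ S, c x = i)).card =
        ∑ c : α → Fin m, (univ.filter (fun i : Fin m => ∃ S ∈ F, ∀ x ∈ S, c x = i)).card := by
        simp only [card_filter]
        rw [sum_comm]
      exact_mod_cast h4
    have h5 : ∑ i : Fin m, (m : ℝ) ^ Fintype.card α ≤ ∑ i : Fin m, 2 * ((univ.filter
        (fun c : α → Fin m => ∃ S ∈ F, ∀ x ∈ S, c x = i)).card : ℝ) :=
      sum_le_sum fun i _ => h1 i
    rw [← mul_sum, h3, sum_const, card_univ, Fintype.card_fin, nsmul_eq_mul] at h5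
    have h6 : ∑ c : α → Fin m, ((univ.filter
        (fun i : Fin m => ∃ S ∈ F, ∀ x ∈ S, c x = i)).card : ℝ) ≤
        ∑ c : α → Fin m, ((r : ℝ) - 1) := by
      refine sum_le_sum fun c _ => ?_
      have h7 := hcon c
      have h8 : (univ.filter (fun i : Fin m => ∃ S ∈ F, ∀ x ∈ S, c x = i)).card + 1 ≤ r := h7
      have h9 : (((univ.filter (fun i : Fin m => ∃ S ∈ F, ∀ x ∈ S, c x = i)).card : ℝ)) + 1 ≤ r := by
        exact_mod_cast h8
      linarith
    rw [sum_const, card_univ, Fintype.card_fun, Fintype.card_fin, nsmul_eq_mul] at h6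
    have h10 : (0 : ℝ) < (m : ℝ) ^ Fintype.card α := by
      have : (0 : ℝ) < m := by
        rw [hm]
        have : 0 < 2 * r := by omega
        exact_mod_cast this
      positivity
    have h11 : (m : ℝ) = 2 * r := by rw [hm]; push_cast; ring
    push_cast at h6
    rw [h11] at h5 h6 h10
    nlinarith
  obtain ⟨c, hc⟩ := h2
  obtain ⟨I, hI, hIc⟩ := exists_subset_card_eq hc
  have h3 : ∀ i ∈ I, ∃ S ∈ F, ∀ x ∈ S, c x = i := fun i hi => (mem_filter.1 (hI hi)).2
  choose! g hg1 hg2 using h3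
  set e := I.orderIsoOfFin hIc with he
  refine ⟨fun j => g (e j), fun j => hg1 _ (e j).2, fun j j' hjj => ?_⟩
  rw [disjoint_left]
  intro x hx hx'
  have h4 := hg2 _ (e j).2 x hx
  have h5 := hg2 _ (e j').2 x hx'
  exact hjj (e.injective (Subtype.ext (h4.symm.trans h5)))

end Colour

variable {α : Type*} [DecidableEq α]

/-- Without finiteness of the ground set. -/
theorem exists_disjoint_members {F : Finset (Finset α)} {R : ℝ} {d r : ℕ} (hF : F.Nonempty)
    (hd : 1 ≤ d) (hr : 1 ≤ r) (hR : 240 * (d : ℝ) * r ≤ R) (hsp : Spr F R) (hg : Gr F d) :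
    ∃ f : Fin r → Finset α, (∀ j, f j ∈ F) ∧ ∀ j j', j ≠ j' → Disjoint (f j) (f j') := by
  classical
  set U := F.biUnion id with hU
  let φ : Finset α → Finset U := fun S => univ.filter (fun x => x.1 ∈ S)
  have hφ : ∀ S x, x ∈ φ S ↔ x.1 ∈ S := by
    intro S x
    simp [φ]
  have hmap : ∀ S, S ⊆ U → (φ S).map (Function.Embedding.subtype _) = S := by
    intro S hS
    ext x
    rw [mem_map]
    constructor
    · rintro ⟨y, hy, rfl⟩
      exact (hφ S y).1 hy
    · intro hx
      exact ⟨⟨x, hS hx⟩, (hφ S _).2 hx, rfl⟩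
  have hsubU : ∀ S ∈ F, S ⊆ U := fun S hS => subset_biUnion_of_mem id hS
  have hinj : Set.InjOn φ F := by
    intro S hS T hT hST
    rw [← hmap S (hsubU S hS), ← hmap T (hsubU T hT), hST]
  have hcard : (F.image φ).card = F.card := card_image_of_injOn hinj
  have hsub : ∀ (T : Finset U) (S : Finset α), T ⊆ φ S ↔
      T.map (Function.Embedding.subtype _) ⊆ S := by
    intro T S
    constructor
    · intro h x hx
      obtain ⟨y, hy, rfl⟩ := mem_map.1 hx
      exact (hφ S y).1 (h hy)
    · intro h x hx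
      exact (hφ S x).2 (h (mem_map.2 ⟨x, hx, rfl⟩))
  have hsp' : Spr (F.image φ) R := by
    intro T
    have h1 := hsp (T.map (Function.Embedding.subtype _))
    rw [card_map] at h1
    rw [hcard]
    have h2 : deg (F.image φ) T = deg F (T.map (Function.Embedding.subtype _)) := by
      unfold deg
      rw [filter_image, card_image_of_injOn]
      · simp only [hsub]
      · intro S hS T hT hST
        exact hinj (mem_coe.2 (mem_filter.1 (mem_coe.1 hS)).1)
          (mem_coe.2 (mem_filter.1 (mem_coe.1 hT)).1) hST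
    rw [h2]
    exact h1
  have hg' : Gr (F.image φ) d := by
    intro Y
    have h1 := hg (Y.map (Function.Embedding.subtype _))
    rw [card_map] at h1
    refine le_trans ?_ h1
    rw [image_image]
    have h2 : ∀ S ∈ F, (φ S ∩ Y).map (Function.Embedding.subtype _) =
        S ∩ Y.map (Function.Embedding.subtype _) := by
      intro S hS
      rw [map_inter, hmap S (hsubU S hS)]
    have h3 : F.image (fun S => S ∩ Y.map (Function.Embedding.subtype _)) =
        (F.image ((fun S => S ∩ Y) ∘ φ)).image (fun T => T.map (Function.Embedding.subtype _)) := by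
      rw [image_image]
      refine image_congr ?_
      intro S hS
      exact (h2 S hS).symm
    rw [h3, card_image_of_injective _ (map_injective _)]
  obtain ⟨f, hf, hdis⟩ := exists_colouring (F := F.image φ) (hF.image φ) hd hr hR hsp' hg'
  have h4 : ∀ j, ∃ S ∈ F, φ S = f j := fun j => mem_image.1 (hf j)
  choose g hg1 hg2 using h4
  refine ⟨g, hg1, fun j j' hjj => ?_⟩
  rw [disjoint_left]
  intro x hx hx'
  have h5 := hdis j j' hjj
  rw [← hg2, ← hg2] at h5
  exact disjoint_left.1 h5 ((hφ (g j) ⟨x, hsubU _ (hg1 j) hx⟩).2 hx)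
    ((hφ (g j') ⟨x, hsubU _ (hg1 j) hx⟩).2 hx')

end Pool.Agent.Helper17.VCS
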