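import Mathlib
import Pool.Agent.Helper17.VCS.Col

/-!
Families of sets with few traces and without sunflowers; Sauer–Shelah.
-/

open Finset

namespace Pool.Agent.Helper17.VCS

variable {α : Type*} [DecidableEq α]

/-- **The bound for families of sets with few traces.** -/
theorem exists_sunflower {F : Finset (Finset α)} {k r d : ℕ} (hd : 1 ≤ d) (hr : 1 ≤ r)
    (hk : ∀ S ∈ F, S.card ≤ k) (hg : Gr F d) (hF : (480 * (d : ℝ) * r) ^ k < F.card) :
    ∃ (K : Finset α) (f : Fin r → Finset α), (∀ j, f j ∈ F ∧ K ⊂ f j) ∧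
      ∀ j j', j ≠ j' → f j ∩ f j' = K := by
  classical
  set R : ℝ := 480 * (d : ℝ) * r with hR
  have hd' : (1 : ℝ) ≤ d := by exact_mod_cast hd
  have hr' : (1 : ℝ) ≤ r := by exact_mod_cast hr
  have hR1 : 480 ≤ R := by rw [hR]; nlinarith
  have hR0 : 0 < R := by linarith
  have hFne : F.Nonempty := by
    rw [← card_pos]
    have : (0 : ℝ) < F.card := lt_of_le_of_lt (by positivity) hF
    exact_mod_cast this
  -- the kernel
  obtain ⟨K, hK, hmax⟩ := exists_max_image (F.biUnion powerset)
    (fun T => (deg F T : ℝ) * R ^ T.card) (by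
      obtain ⟨S, hS⟩ := hFne
      exact ⟨∅, mem_biUnion.2 ⟨S, hS, empty_mem_powerset S⟩⟩)
  have hdeg0 : deg F ∅ = F.card := by
    unfold deg
    rw [filter_true_of_mem fun _ _ => empty_subset _]
  have hK1 : (F.card : ℝ) ≤ (deg F K : ℝ) * R ^ K.card := by
    obtain ⟨S, hS⟩ := hFne
    have h1 := hmax ∅ (mem_biUnion.2 ⟨S, hS, empty_mem_powerset S⟩)
    rw [hdeg0, card_empty, pow_zero, mul_one] at h1
    exact h1
  have hKk : K.card ≤ k := by
    obtain ⟨S, hS, hKS⟩ := mem_biUnion.1 hK
    exact (card_le_card (mem_powerset.1 hKS)).trans (hk S hS)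
  have hRK : 0 < R ^ K.card := by positivity
  have hdeg2 : 2 ≤ deg F K := by
    by_contra hcon
    have h1 : deg F K ≤ 1 := by omega
    have h2 : (deg F K : ℝ) ≤ 1 := by exact_mod_cast h1
    have h3 : (deg F K : ℝ) * R ^ K.card ≤ 1 * R ^ K.card :=
      mul_le_mul_of_nonneg_right h2 hRK.le
    have h4 : R ^ K.card ≤ R ^ k := pow_le_pow_right₀ (by linarith) hKk
    linarith
  have hmax' : ∀ T, (deg F T : ℝ) * R ^ T.card ≤ (deg F K : ℝ) * R ^ K.card := by
    intro T
    by_cases h0 : deg F T = 0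
    · rw [h0, Nat.cast_zero, zero_mul]
      exact mul_nonneg (Nat.cast_nonneg _) hRK.le
    · obtain ⟨S, hS⟩ := card_pos.1 (Nat.pos_of_ne_zero h0)
      exact hmax T (mem_biUnion.2 ⟨S, (mem_filter.1 hS).1, mem_powerset.2 (mem_filter.1 hS).2⟩)
  -- the link
  set G := ((F.filter (fun S => K ⊆ S)).erase K) with hG
  have hGmem : ∀ S ∈ G, S ∈ F ∧ K ⊂ S := by
    intro S hS
    rw [hG, mem_erase, mem_filter] at hS
    exact ⟨hS.2.1, Finset.ssubset_iff_subset_ne.2 ⟨hS.2.2, Ne.symm hS.1⟩⟩
  set L := G.image (fun S => S \ K) with hL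
  have hinj : Set.InjOn (fun S => S \ K) (G : Set (Finset α)) := by
    intro S hS T hT hST
    have h1 := (hGmem S hS).2.subset
    have h2 := (hGmem T hT).2.subset
    have h3 : S \ K = T \ K := hST
    rw [← sdiff_union_of_subset h1, ← sdiff_union_of_subset h2, h3]
  have hLcard : L.card = G.card := card_image_of_injOn hinj
  have hGcard : deg F K ≤ 2 * G.card := by
    have h1 : deg F K ≤ G.card + 1 := by
      unfold deg
      have h0 := pred_card_le_card_erase (s := F.filter (fun S => K ⊆ S)) (a := K)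
      rw [hG]
      omega
    omega
  have hGcard' : (deg F K : ℝ) ≤ 2 * G.card := by exact_mod_cast hGcard
  have hGpos : 0 < G.card := by omega
  have hLne : L.Nonempty := (card_pos.1 hGpos).image _
  have hspL : Spr L (R / 2) := by
    intro T
    rw [hLcard]
    rcases T.eq_empty_or_nonempty with hT | hT
    · subst hT
      have : deg L ∅ ≤ L.card := card_le_card (filter_subset _ _)
      rw [card_empty, pow_zero, mul_one, ← hLcard]
      exact_mod_cast this
    by_cases hdis : Disjoint T K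
    · have h1 : deg L T ≤ deg F (T ∪ K) := by
        unfold deg
        rw [hL, filter_image]
        refine card_image_le.trans (card_le_card fun S hS => ?_)
        rw [mem_filter] at hS ⊢
        exact ⟨(hGmem S hS.1).1, union_subset (hS.2.trans sdiff_subset)
          (hGmem S hS.1).2.subset⟩
      have h2 := hmax' (T ∪ K)
      rw [card_union_of_disjoint hdis, pow_add, ← mul_assoc] at h2
      have h3 : (deg F (T ∪ K) : ℝ) * R ^ T.card ≤ deg F K := le_of_mul_le_mul_right h2 hRK
      have h4 : (deg L T : ℝ) ≤ deg F (T ∪ K) := by exact_mod_cast h1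
      have h5 : (2 : ℝ) ≤ 2 ^ T.card := by
        calc (2 : ℝ) = 2 ^ 1 := by norm_num
          _ ≤ 2 ^ T.card := pow_le_pow_right₀ (by norm_num) hT.card_pos
      have h6 : (0 : ℝ) < 2 ^ T.card := by positivity
      rw [div_pow, mul_div_assoc', div_le_iff₀ h6]
      calc (deg L T : ℝ) * R ^ T.card ≤ (deg F (T ∪ K) : ℝ) * R ^ T.card :=
            mul_le_mul_of_nonneg_right h4 (by positivity)
        _ ≤ deg F K := h3
        _ ≤ 2 * G.card := hGcard'
        _ ≤ 2 ^ T.card * G.card := mul_le_mul_of_nonneg_right h5 (by positivity)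
        _ = G.card * 2 ^ T.card := mul_comm _ _
    · have h1 : deg L T = 0 := by
        unfold deg
        rw [card_eq_zero, filter_eq_empty_iff]
        intro S hS hTS
        obtain ⟨S', hS', rfl⟩ := mem_image.1 hS
        exact hdis (disjoint_left.2 fun x hx hx' => (mem_sdiff.1 (hTS hx)).2 hx')
      rw [h1]
      push_cast
      rw [zero_mul]
      positivity
  have hgL : Gr L d := by
    intro Y
    have h1 := hg (Y \ K)
    have h2 : L.image (fun S => S ∩ Y) ⊆ F.image (fun S => S ∩ (Y \ K)) := by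
      intro T hT
      obtain ⟨S, hS, rfl⟩ := mem_image.1 hT
      obtain ⟨S', hS', rfl⟩ := mem_image.1 hS
      refine mem_image.2 ⟨S', (hGmem S' hS').1, ?_⟩
      ext x
      simp only [mem_inter, mem_sdiff]
      tauto
    calc (L.image (fun S => S ∩ Y)).card ≤ (F.image (fun S => S ∩ (Y \ K))).card :=
          card_le_card h2
      _ ≤ (1 + (Y \ K).card) ^ d := h1
      _ ≤ (1 + Y.card) ^ d := Nat.pow_le_pow_left (by
          have := card_le_card (sdiff_subset : Y \ K ⊆ Y)
          omega) d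
  obtain ⟨f, hf, hdisj⟩ := exists_disjoint_members hLne hd hr (R := R / 2) (by rw [hR]; linarith)
    hspL hgL
  have h7 : ∀ j, ∃ S ∈ G, S \ K = f j := fun j => mem_image.1 (hf j)
  choose g hg1 hg2 using h7
  refine ⟨K, g, fun j => hGmem _ (hg1 j), fun j j' hjj => ?_⟩
  have h8 := hdisj j j' hjj
  rw [← hg2, ← hg2] at h8
  ext x
  rw [mem_inter]
  constructor
  · rintro ⟨hx, hx'⟩
    by_contra hxK
    exact disjoint_left.1 h8 (mem_sdiff.2 ⟨hx, hxK⟩) (mem_sdiff.2 ⟨hx', hxK⟩)
  · intro hx
    exact ⟨(hGmem _ (hg1 j)).2.subset hx, (hGmem _ (hg1 j')).2.subset hx⟩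

/-- the number of small subsets -/
theorem sum_choose_le (n d : ℕ) : ∑ i ∈ range (d + 1), n.choose i ≤ (1 + n) ^ d := by
  induction d with
  | zero => simp
  | succ d ih =>
    rw [sum_range_succ]
    have h1 : n.choose (d + 1) ≤ n ^ (d + 1) := Nat.choose_le_pow n (d + 1)
    have h2 : n ^ d ≤ (1 + n) ^ d := Nat.pow_le_pow_left (by omega) d
    calc ∑ i ∈ range (d + 1), n.choose i + n.choose (d + 1) ≤ (1 + n) ^ d + n ^ (d + 1) :=
          Nat.add_le_add ih h1
      _ = (1 + n) ^ d + n ^ d * n := by rw [pow_succ]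
      _ ≤ (1 + n) ^ d + (1 + n) ^ d * n := by gcongr
      _ = (1 + n) ^ (d + 1) := by rw [pow_succ]; ring

/-- Sauer–Shelah -/
theorem card_le_of_not_shatters (H : Finset (Finset α)) (D : Finset α) (d : ℕ)
    (hH : ∀ S ∈ H, S ⊆ D) (hsh : ∀ E : Finset α, E.card = d + 1 → ¬ H.Shatters E) :
    H.card ≤ (1 + D.card) ^ d := by
  classical
  refine (card_le_card_shatterer H).trans ?_
  have h1 : H.shatterer ⊆ (range (d + 1)).biUnion (fun i => D.powersetCard i) := by
    intro E hE
    have hE' : H.Shatters E := mem_shatterer.1 hE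
    have hED : E ⊆ D := by
      obtain ⟨S, hS, h⟩ := hE' (subset_refl E)
      have : E ⊆ S := by
        rw [← h]
        exact inter_subset_right
      exact this.trans (hH S hS)
    have hEc : E.card ≤ d := by
      by_contra hcon
      obtain ⟨E', hE'1, hE'2⟩ := exists_subset_card_eq (show d + 1 ≤ E.card by omega)
      exact hsh E' hE'2 (hE'.mono_right hE'1)
    exact mem_biUnion.2 ⟨E.card, mem_range.2 (by omega), mem_powersetCard.2 ⟨hED, rfl⟩⟩
  refine (card_le_card h1).trans (card_biUnion_le.trans ?_)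
  simp only [card_powersetCard]
  exact sum_choose_le _ _

end Pool.Agent.Helper17.VCS
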