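import Mathlib
import Pool.Agent.Helper17.VCS.SetB
import Pool.Agent.Helper10.GcdSun.Bound

/-!
Sets of positive integers with few traces on the primes and without gcd-sunflowers.
-/

open Finset

namespace Pool.Agent.Helper17.VCS

open Pool.Agent.Helper10.GcdSun

/-- For every finite set `D` of primes at most `(1 + |D|) ^ d` of the subsets of `D` are of the form
`{p ∈ D : p ∣ a}` with `a` in `A`. -/
def FewTraces (d : ℕ) (A : Finset ℕ) : Prop :=
  ∀ D : Finset ℕ, (∀ p ∈ D, p.Prime) →
    (A.image (fun a => D.filter (fun p => p ∣ a))).card ≤ (1 + D.card) ^ d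

/-- Every set `D` of `d + 1` primes has a subset `E` such that no `a` in `A` is divisible by the
primes in `E` and by no other prime in `D`. -/
def VCle (d : ℕ) (A : Finset ℕ) : Prop :=
  ∀ D : Finset ℕ, (∀ p ∈ D, p.Prime) → D.card = d + 1 →
    ∃ E ⊆ D, ∀ a ∈ A, ¬ ∀ p ∈ D, (p ∣ a ↔ p ∈ E)

theorem fewTraces_of_VCle {d : ℕ} {A : Finset ℕ} (h : VCle d A) : FewTraces d A := by
  classical
  intro D hD
  refine card_le_of_not_shatters _ D d ?_ ?_
  · intro S hS
    obtain ⟨a, _, rfl⟩ := mem_image.1 hS
    exact filter_subset _ _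
  · intro E hE hsh
    have hED : E ⊆ D := by
      obtain ⟨S, hS, h1⟩ := hsh (subset_refl E)
      obtain ⟨a, _, rfl⟩ := mem_image.1 hS
      have h2 : E ⊆ D.filter (fun p => p ∣ a) := by
        rw [← h1]
        exact inter_subset_right
      exact h2.trans (filter_subset _ _)
    obtain ⟨E', hE'E, hE'⟩ := h E (fun p hp => hD p (hED hp)) hE
    obtain ⟨S, hS, h1⟩ := hsh hE'E
    obtain ⟨a, ha, rfl⟩ := mem_image.1 hS
    refine hE' a ha fun p hp => ?_
    rw [← h1, mem_inter, mem_filter]
    exact ⟨fun h => ⟨hp, hED hp, h⟩, fun h => h.2.2⟩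

/-- From `A` one can select a subset in which the exponents of the primes in `P` are uniform. -/
theorem exists_uniform_w (w : ℕ → ℕ → ℝ) (hw : ∀ p e, 0 ≤ w p e)
    (hw1 : ∀ p n, ∑ e ∈ range n, w p (e + 1) ≤ 1) (P : Finset ℕ) :
    ∀ (A : Finset ℕ) (v : ℕ → ℝ), (∀ a, 0 ≤ v a) →
    ∃ A' : Finset ℕ, A' ⊆ A ∧
      (∀ p ∈ P, ∀ a ∈ A', ∀ b ∈ A', a.factorization p ≠ 0 → b.factorization p ≠ 0 →
        a.factorization p = b.factorization p) ∧
      ∑ a ∈ A, v a * ∏ p ∈ P, (if a.factorization p = 0 then 1 else w p (a.factorization p)) ≤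
        ∑ a ∈ A', v a := by
  classical
  induction P using Finset.induction_on with
  | empty =>
    intro A v _
    exact ⟨A, subset_refl _, by simp, by simp⟩
  | insert p P hp ih =>
    intro A v hv
    obtain ⟨A', h1, h2, h3⟩ := ih A
      (fun a => v a * (if a.factorization p = 0 then 1 else w p (a.factorization p)))
      (fun a => mul_nonneg (hv a) (by
        split_ifs
        · exact zero_le_one
        · exact hw _ _))
    -- the exponents of `p`
    set K := (A'.sup (fun a => a.factorization p)) + 1 with hK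
    have hKb : ∀ a ∈ A', a.factorization p < K := by
      intro a ha
      have : a.factorization p ≤ A'.sup (fun a => a.factorization p) :=
        le_sup (f := fun a => a.factorization p) ha
      omega
    obtain ⟨e, he, hmax⟩ := exists_max_image (range K)
      (fun e => ∑ a ∈ A'.filter (fun a => a.factorization p = e + 1), v a)
      ⟨0, mem_range.2 (by omega)⟩
    refine ⟨A'.filter (fun a => a.factorization p = 0 ∨ a.factorization p = e + 1),
      (filter_subset _ _).trans h1, ?_, ?_⟩
    · intro q hq a ha b hb ha0 hb0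
      rw [mem_filter] at ha hb
      rcases mem_insert.1 hq with h | h
      · subst h
        rw [ha.2.resolve_left ha0, hb.2.resolve_left hb0]
      · exact h2 q h a ha.1 b hb.1 ha0 hb0
    · have e1 : ∑ a ∈ A, v a * ∏ q ∈ insert p P,
            (if a.factorization q = 0 then 1 else w q (a.factorization q)) =
          ∑ a ∈ A, v a * (if a.factorization p = 0 then 1 else w p (a.factorization p)) *
            ∏ q ∈ P, (if a.factorization q = 0 then 1 else w q (a.factorization q)) := by
        refine sum_congr rfl fun a _ => ?_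
        rw [prod_insert hp]
        ring
      rw [e1]
      refine h3.trans ?_
      set W : ℕ → ℝ := fun e => ∑ a ∈ A'.filter (fun a => a.factorization p = e), v a with hW
      have hW0 : ∀ e, 0 ≤ W e := fun e => sum_nonneg fun a _ => hv a
      have e2 : ∑ a ∈ A', v a * (if a.factorization p = 0 then 1 else w p (a.factorization p)) =
          ∑ f ∈ range (K + 1), W f * (if f = 0 then 1 else w p f) := by
        rw [← sum_fiberwise_of_maps_to (s := A') (t := range (K + 1))
          (g := fun a => a.factorization p)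
          (fun a ha => mem_range.2 ((hKb a ha).trans (Nat.lt_succ_self K)))]
        refine sum_congr rfl fun f _ => ?_
        rw [hW]
        simp only
        rw [sum_mul]
        refine sum_congr rfl fun a ha => ?_
        rw [(mem_filter.1 ha).2]
      have e3 : ∑ f ∈ range (K + 1), W f * (if f = 0 then 1 else w p f) ≤ W 0 + W (e + 1) := by
        rw [sum_range_succ']
        simp only [Nat.add_eq_zero_iff, one_ne_zero, and_false, if_false, if_true, mul_one]
        rw [add_comm]
        refine add_le_add_right ?_ _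
        calc ∑ f ∈ range K, W (f + 1) * w p (f + 1)
            ≤ ∑ f ∈ range K, W (e + 1) * w p (f + 1) :=
              sum_le_sum fun f hf => mul_le_mul_of_nonneg_right (hmax f hf) (hw _ _)
          _ = W (e + 1) * ∑ f ∈ range K, w p (f + 1) := by rw [mul_sum]
          _ ≤ W (e + 1) * 1 := mul_le_mul_of_nonneg_left (hw1 p K) (hW0 _)
          _ = W (e + 1) := mul_one _
      have e5 : ∑ a ∈ A'.filter (fun a => a.factorization p = 0 ∨ a.factorization p = e + 1), v a =
          W 0 + W (e + 1) := by
        rw [filter_or, sum_union]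
        rw [disjoint_filter]
        intro a _ h0 h0'
        omega
      rw [e5, e2]
      exact e3

/-- a sunflower of supports gives a gcd-sunflower if the exponents are uniform -/
theorem gcd_of_supports {A : Finset ℕ} (hpos : ∀ a ∈ A, 0 < a)
    (hunif : ∀ a ∈ A, ∀ b ∈ A, ∀ p, p ∈ a.primeFactors → p ∈ b.primeFactors →
      a.factorization p = b.factorization p) {r : ℕ} (hr : 1 ≤ r) {K : Finset ℕ}
    {f : Fin r → Finset ℕ} (hf : ∀ j, f j ∈ A.image Nat.primeFactors ∧ K ⊂ f j)
    (hdis : ∀ j j', j ≠ j' → f j ∩ f j' = K) :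
    ∃ S : Finset ℕ, S ⊆ A ∧ S.card = r ∧ GcdSunflower S := by
  classical
  have h1 : ∀ j, ∃ a ∈ A, a.primeFactors = f j := fun j => mem_image.1 (hf j).1
  choose g hgA hg using h1
  have hinj : Function.Injective g := by
    intro j j' hjj
    by_contra hne
    have h1 := hdis j j' hne
    rw [← hg j, ← hg j', ← hjj, inter_self, hg j] at h1
    exact (hf j).2.ne h1.symm
  set j0 : Fin r := ⟨0, hr⟩ with hj0
  set φ : ℕ →₀ ℕ := Finsupp.filter (fun p => p ∈ K) (g j0).factorization with hφ
  have hφp : ∀ p ∈ φ.support, p.Prime := by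
    intro p hp
    rw [hφ, Finsupp.support_filter, mem_filter] at hp
    exact Nat.prime_of_mem_primeFactors hp.1
  set D : ℕ := φ.prod (fun p e => p ^ e) with hD
  have hDfac : D.factorization = φ := Nat.prod_pow_factorization_eq_self hφp
  have hD0 : 0 < D := by
    rw [hD, Finsupp.prod]
    exact prod_pos fun p hp => pow_pos (hφp p hp).pos _
  have hDK : ∀ j, ∀ p ∈ K, (g j).factorization p = D.factorization p := by
    intro j p hp
    rw [hDfac, hφ, Finsupp.filter_apply, if_pos hp]
    refine hunif _ (hgA j) _ (hgA j0) p ?_ ?_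
    · rw [hg]
      exact (hf j).2.subset hp
    · rw [hg]
      exact (hf j0).2.subset hp
  have hDK' : ∀ p, p ∉ K → D.factorization p = 0 := by
    intro p hp
    rw [hDfac, hφ, Finsupp.filter_apply, if_neg hp]
  have hdvd : ∀ j, D ∣ g j := by
    intro j
    rw [← Nat.factorization_le_iff_dvd hD0.ne' (hpos _ (hgA j)).ne', Finsupp.le_def]
    intro p
    by_cases hp : p ∈ K
    · rw [hDK j p hp]
    · rw [hDK' p hp]
      exact Nat.zero_le _
  refine ⟨univ.image g, ?_, ?_, D, hD0, ?_, ?_⟩
  · intro a ha
    obtain ⟨j, _, rfl⟩ := mem_image.1 ha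
    exact hgA j
  · rw [card_image_of_injective _ hinj, card_univ, Fintype.card_fin]
  · intro a ha b hb hab
    obtain ⟨j, _, rfl⟩ := mem_image.1 ha
    obtain ⟨j', _, rfl⟩ := mem_image.1 hb
    have hjj : j ≠ j' := fun h => hab (h ▸ rfl)
    refine Nat.eq_of_factorization_eq ?_ hD0.ne' ?_
    · exact Nat.gcd_ne_zero_left (hpos _ (hgA j)).ne'
    · intro p
      rw [Nat.factorization_gcd (hpos _ (hgA j)).ne' (hpos _ (hgA j')).ne', Finsupp.inf_apply]
      by_cases hp : p ∈ K
      · rw [hDK j p hp, hDK j' p hp, inf_idem]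
      · rw [hDK' p hp]
        by_cases hp1 : p ∈ (g j).primeFactors
        · have hp2 : p ∉ (g j').primeFactors := by
            intro h
            apply hp
            rw [← hdis j j' hjj, mem_inter, ← hg j, ← hg j']
            exact ⟨hp1, h⟩
          rw [Finsupp.notMem_support_iff.1 (show p ∉ (g j').factorization.support from hp2)]
          exact Nat.min_zero _
        · rw [Finsupp.notMem_support_iff.1 (show p ∉ (g j).factorization.support from hp1)]
          exact Nat.zero_min _
  · intro a ha
    obtain ⟨j, _, rfl⟩ := mem_image.1 ha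
    obtain ⟨b, hb⟩ := hdvd j
    refine ⟨b, hb, ?_⟩
    have hfj := hpos _ (hgA j)
    have hb0 : b ≠ 0 := by
      rintro rfl
      rw [mul_zero] at hb
      omega
    rw [Nat.coprime_iff_gcd_eq_one, Nat.eq_one_iff_not_exists_prime_dvd]
    intro p hp hpd
    have hpb : p ∣ b := hpd.trans (Nat.gcd_dvd_left b D)
    have hpd' : p ∣ D := hpd.trans (Nat.gcd_dvd_right b D)
    have hpK : p ∈ K := by
      by_contra hcon
      have h0 := hDK' p hcon
      have h1 := hp.factorization_pos_of_dvd hD0.ne' hpd'
      omega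
    have h2 := hDK j p hpK
    have e2 : (g j).factorization p = D.factorization p + b.factorization p := by
      conv_lhs => rw [hb]
      rw [Nat.factorization_mul hD0.ne' hb0, Finsupp.add_apply]
    have h3 := hp.factorization_pos_of_dvd hb0 hpb
    omega

/-- **Main inequality.** -/
theorem weighted {r d m : ℕ} (hd : 1 ≤ d) (hr : 1 ≤ r) {A : Finset ℕ} (hA : ∀ a ∈ A, 0 < a)
    (hm : ∀ a ∈ A, a.primeFactors.card ≤ m) (htr : FewTraces d A)
    (hfree : ¬ ∃ S : Finset ℕ, S ⊆ A ∧ S.card = r ∧ GcdSunflower S)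
    (w : ℕ → ℕ → ℝ) (hw : ∀ p e, 0 ≤ w p e) (hw1 : ∀ p n, ∑ e ∈ range n, w p (e + 1) ≤ 1) :
    ∑ a ∈ A, ∏ p ∈ a.primeFactors, w p (a.factorization p) ≤ (480 * (d : ℝ) * r) ^ m := by
  classical
  obtain ⟨A', hA', huni, hsum⟩ := exists_uniform_w w hw hw1 (A.biUnion Nat.primeFactors) A
    (fun _ => 1) (fun _ => zero_le_one)
  have h1 : ∀ a ∈ A, ∏ p ∈ A.biUnion Nat.primeFactors,
      (if a.factorization p = 0 then 1 else w p (a.factorization p)) =
      ∏ p ∈ a.primeFactors, w p (a.factorization p) := by
    intro a ha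
    have h2 : ∏ p ∈ a.primeFactors, w p (a.factorization p) = ∏ p ∈ a.primeFactors,
        (if a.factorization p = 0 then 1 else w p (a.factorization p)) := by
      refine prod_congr rfl fun p hp => ?_
      rw [if_neg (Finsupp.mem_support_iff.1 hp)]
    rw [h2]
    symm
    refine prod_subset (fun p hp => mem_biUnion.2 ⟨a, ha, hp⟩) fun p _ hp => ?_
    rw [if_pos (Finsupp.notMem_support_iff.1 hp)]
  have e1 : ∑ a ∈ A, ∏ p ∈ a.primeFactors, w p (a.factorization p) ≤ (A'.card : ℝ) := by
    rw [sum_congr rfl fun a ha => by rw [one_mul, h1 a ha]] at hsum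
    simpa using hsum
  refine e1.trans ?_
  have hunif : ∀ a ∈ A', ∀ b ∈ A', ∀ p, p ∈ a.primeFactors → p ∈ b.primeFactors →
      a.factorization p = b.factorization p := by
    intro a ha b hb p hpa hpb
    exact huni p (mem_biUnion.2 ⟨a, hA' ha, hpa⟩) a ha b hb
      (Finsupp.mem_support_iff.1 hpa) (Finsupp.mem_support_iff.1 hpb)
  have hinj : Set.InjOn Nat.primeFactors (A' : Set ℕ) := by
    intro a ha b hb hab
    refine Nat.eq_of_factorization_eq (hA a (hA' ha)).ne' (hA b (hA' hb)).ne' fun p => ?_
    by_cases hp : p ∈ a.primeFactors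
    · exact hunif a ha b hb p hp (hab ▸ hp)
    · have hp' : p ∉ b.primeFactors := hab ▸ hp
      rw [Finsupp.notMem_support_iff.1 (show p ∉ a.factorization.support from hp),
        Finsupp.notMem_support_iff.1 (show p ∉ b.factorization.support from hp')]
  by_contra hcon
  push Not at hcon
  rw [← card_image_of_injOn hinj] at hcon
  have hg : Gr (A'.image Nat.primeFactors) d := by
    intro Y
    set D := Y.filter Nat.Prime with hD
    have h2 := htr D (fun p hp => (mem_filter.1 hp).2)
    have h3 : (A'.image Nat.primeFactors).image (fun S => S ∩ Y) ⊆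
        A.image (fun a => D.filter (fun p => p ∣ a)) := by
      intro T hT
      obtain ⟨S, hS, rfl⟩ := mem_image.1 hT
      obtain ⟨a, ha, rfl⟩ := mem_image.1 hS
      refine mem_image.2 ⟨a, hA' ha, ?_⟩
      ext p
      rw [mem_filter, hD, mem_filter, mem_inter, Nat.mem_primeFactors]
      have := (hA a (hA' ha)).ne'
      tauto
    calc ((A'.image Nat.primeFactors).image (fun S => S ∩ Y)).card
        ≤ (A.image (fun a => D.filter (fun p => p ∣ a))).card := card_le_card h3
      _ ≤ (1 + D.card) ^ d := h2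
      _ ≤ (1 + Y.card) ^ d := Nat.pow_le_pow_left (by
          have h4 := card_le_card (filter_subset Nat.Prime Y)
          rw [← hD] at h4
          omega) d
  obtain ⟨K, f, hf, hdis⟩ := exists_sunflower (k := m) hd hr (by
    intro S hS
    obtain ⟨a, ha, rfl⟩ := mem_image.1 hS
    exact hm a (hA' ha)) hg hcon
  obtain ⟨S, hS, hSr, hSg⟩ := gcd_of_supports (fun a ha => hA a (hA' ha)) hunif hr hf hdis
  exact hfree ⟨S, hS.trans hA', hSr, hSg⟩

/-- the bound for sets with `Ω(a) ≤ k`, `ω(a) ≤ m` -/
theorem bound_k {r d k m : ℕ} (hd : 1 ≤ d) (hr : 1 ≤ r) {A : Finset ℕ} (hA : ∀ a ∈ A, 0 < a)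
    (hk : ∀ a ∈ A, a.primeFactorsList.length ≤ k)
    (hm : ∀ a ∈ A, a.primeFactors.card ≤ m) (htr : FewTraces d A)
    (hfree : ¬ ∃ S : Finset ℕ, S ⊆ A ∧ S.card = r ∧ GcdSunflower S) :
    (A.card : ℝ) ≤ 2 ^ k * (480 * (d : ℝ) * r) ^ m := by
  have h := weighted hd hr hA hm htr hfree (fun _ e => (1 / 2 : ℝ) ^ e)
    (fun _ e => by positivity) (fun _ n => by
      have : ∀ n : ℕ, ∑ e ∈ range n, (1 / 2 : ℝ) ^ (e + 1) = 1 - (1 / 2) ^ n := by
        intro n
        induction n with
        | zero => simp
        | succ n ih =>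
          rw [sum_range_succ, ih, pow_succ]
          ring
      rw [this]
      have : (0:ℝ) ≤ (1 / 2) ^ n := by positivity
      linarith)
  have h1 : ∀ a ∈ A, (1 / 2 : ℝ) ^ k ≤ ∏ p ∈ a.primeFactors, (1 / 2 : ℝ) ^ a.factorization p := by
    intro a ha
    have h2 : a.primeFactorsList.length = ∑ p ∈ a.primeFactors, a.factorization p := by
      have := ArithmeticFunction.cardFactors_eq_sum_factorization (n := a)
      rw [ArithmeticFunction.cardFactors_apply] at this
      rw [this, Finsupp.sum]
      rfl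
    rw [prod_pow_eq_pow_sum, ← h2]
    exact pow_le_pow_of_le_one (by norm_num) (by norm_num) (hk a ha)
  have h2 : (A.card : ℝ) * (1 / 2) ^ k ≤ (480 * (d : ℝ) * r) ^ m := by
    refine le_trans ?_ h
    rw [← nsmul_eq_mul, ← sum_const]
    exact sum_le_sum h1
  have h4 : (2:ℝ) ^ k * (1 / 2) ^ k = 1 := by rw [← mul_pow]; norm_num
  nlinarith [mul_le_mul_of_nonneg_left h2 (show (0:ℝ) ≤ 2 ^ k by positivity)]

end Pool.Agent.Helper17.VCS
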