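import Mathlib
import Pool.Agent.Helper17.VCS.Int

/-!
The bound for subsets of `{1, …, N}`.
-/

open Finset Real

namespace Pool.Agent.Helper17.VCS

open Pool.Agent.Helper10.GcdSun

/-- the weights -/
noncomputable def wN (δ : ℝ) (p e : ℕ) : ℝ :=
  if 2 ≤ p then (1 - (p : ℝ) ^ (-δ)) * ((p : ℝ) ^ (-δ)) ^ (e - 1) else 0

theorem xp_bounds {δ : ℝ} (hδ : 0 < δ) {p : ℕ} (hp : 2 ≤ p) :
    0 < (p : ℝ) ^ (-δ) ∧ (p : ℝ) ^ (-δ) < 1 := by
  have hp' : (1 : ℝ) < p := by exact_mod_cast (by omega : 1 < p)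
  exact ⟨Real.rpow_pos_of_pos (by linarith) _, Real.rpow_lt_one_of_one_lt_of_neg hp' (by linarith)⟩

theorem wN_nonneg {δ : ℝ} (hδ : 0 < δ) (p e : ℕ) : 0 ≤ wN δ p e := by
  unfold wN
  split_ifs with h
  · obtain ⟨h1, h2⟩ := xp_bounds hδ h
    exact mul_nonneg (by linarith) (by positivity)
  · exact le_refl _

theorem wN_sum {δ : ℝ} (hδ : 0 < δ) (p n : ℕ) : ∑ e ∈ range n, wN δ p (e + 1) ≤ 1 := by
  unfold wN
  split_ifs with h
  · obtain ⟨h1, h2⟩ := xp_bounds hδ h
    set x := (p : ℝ) ^ (-δ) with hx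
    have h3 : ∑ e ∈ range n, (1 - x) * x ^ (e + 1 - 1) = 1 - x ^ n := by
      simp only [Nat.add_sub_cancel]
      rw [← mul_sum, mul_comm, geom_sum_mul_neg]
    rw [h3]
    have : 0 ≤ x ^ n := by positivity
    linarith
  · simp

theorem half_delta {δ : ℝ} (hδ : 0 < δ) (hδ1 : δ ≤ 1) : (2 : ℝ) ^ (-δ) ≤ 1 - δ / 2 := by
  have h := (convexOn_exp).2 (Set.mem_univ (0 : ℝ)) (Set.mem_univ (-Real.log 2))
    (show 0 ≤ 1 - δ by linarith) hδ.le (by ring)
  simp only [smul_eq_mul, mul_zero, zero_add, Real.exp_zero, mul_one] at h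
  have h2 : Real.exp (-Real.log 2) = 1 / 2 := by
    rw [Real.exp_neg, Real.exp_log (by norm_num)]
    norm_num
  rw [h2] at h
  have h3 : (2 : ℝ) ^ (-δ) = Real.exp (δ * -Real.log 2) := by
    rw [Real.rpow_def_of_pos (by norm_num)]
    congr 1
    ring
  rw [h3]
  linarith

/-- the lower bound for the weight of `a` -/
theorem prod_wN {δ y : ℝ} (hδ : 0 < δ) (hδ1 : δ ≤ 1) (hy : 1 < y) (hyδ : y ^ (-δ) ≤ 1 / 2)
    {a N : ℕ} (ha : 0 < a) (haN : a ≤ N) :
    (N : ℝ) ^ (-δ) * (δ / 2) ^ y * (1 / 2) ^ (Real.log N / Real.log y) ≤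
      ∏ p ∈ a.primeFactors, wN δ p (a.factorization p) := by
  have ha' : (0 : ℝ) < a := by exact_mod_cast ha
  have hN' : (0 : ℝ) < N := by exact_mod_cast (lt_of_lt_of_le ha haN)
  have hx : ∀ p ∈ a.primeFactors, 0 < (p : ℝ) ^ (-δ) ∧ (p : ℝ) ^ (-δ) < 1 := fun p hp =>
    xp_bounds hδ (Nat.prime_of_mem_primeFactors hp).two_le
  -- first step
  have h1 : ∏ p ∈ a.primeFactors, ((1 - (p : ℝ) ^ (-δ)) * ((p : ℝ) ^ (-δ)) ^ a.factorization p) ≤
      ∏ p ∈ a.primeFactors, wN δ p (a.factorization p) := by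
    refine prod_le_prod (fun p hp => ?_) fun p hp => ?_
    · obtain ⟨h1, h2⟩ := hx p hp
      exact mul_nonneg (by linarith) (by positivity)
    · obtain ⟨h1, h2⟩ := hx p hp
      unfold wN
      rw [if_pos (Nat.prime_of_mem_primeFactors hp).two_le]
      refine mul_le_mul_of_nonneg_left ?_ (by linarith)
      exact pow_le_pow_of_le_one h1.le h2.le (Nat.sub_le _ _)
  refine le_trans ?_ h1
  rw [prod_mul_distrib]
  -- the factor `a ^ (-δ)`
  have h2 : ∏ p ∈ a.primeFactors, ((p : ℝ) ^ (-δ)) ^ a.factorization p = (a : ℝ) ^ (-δ) := by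
    have h3 : (a : ℝ) = ∏ p ∈ a.primeFactors, (p : ℝ) ^ a.factorization p := by
      conv_lhs => rw [← Nat.prod_factorization_pow_eq_self ha.ne']
      rw [Finsupp.prod]
      push_cast
      rfl
    rw [h3, ← Real.finsetProd_rpow _ _ (fun p _ => by positivity)]
    refine prod_congr rfl fun p _ => ?_
    rw [← Real.rpow_natCast, ← Real.rpow_natCast, ← Real.rpow_mul (by positivity),
      ← Real.rpow_mul (by positivity), mul_comm]
  rw [h2]
  have h3 : (N : ℝ) ^ (-δ) ≤ (a : ℝ) ^ (-δ) :=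
    Real.rpow_le_rpow_of_nonpos ha' (by exact_mod_cast haN) (by linarith)
  -- small and large primes
  have h4 : (δ / 2) ^ y * (1 / 2) ^ (Real.log N / Real.log y) ≤
      ∏ p ∈ a.primeFactors, (1 - (p : ℝ) ^ (-δ)) := by
    rw [← prod_filter_mul_prod_filter_not a.primeFactors (fun p : ℕ => (p:ℝ) ≤ y)]
    refine mul_le_mul ?_ ?_ (by positivity) (prod_nonneg fun p hp => ?_)
    · calc (δ / 2) ^ y ≤ (δ / 2) ^ (a.primeFactors.filter (fun p : ℕ => (p:ℝ) ≤ y)).card := by
            rw [← Real.rpow_natCast (δ / 2)]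
            refine Real.rpow_le_rpow_of_exponent_ge (by positivity) (by linarith) ?_
            have h2 : a.primeFactors.filter (fun p : ℕ => (p:ℝ) ≤ y) ⊆ Icc 1 ⌊y⌋₊ := by
              intro p hp
              rw [mem_filter] at hp
              exact mem_Icc.2 ⟨(Nat.prime_of_mem_primeFactors hp.1).one_lt.le,
                Nat.le_floor hp.2⟩
            have h3 := card_le_card h2
            rw [Nat.card_Icc] at h3
            calc (((a.primeFactors.filter (fun p : ℕ => (p:ℝ) ≤ y)).card : ℕ) : ℝ)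
                ≤ (⌊y⌋₊ : ℝ) := by
                  exact_mod_cast (by omega :
                    (a.primeFactors.filter (fun p : ℕ => (p:ℝ) ≤ y)).card ≤ ⌊y⌋₊)
              _ ≤ y := Nat.floor_le (by linarith)
        _ ≤ ∏ p ∈ a.primeFactors.filter (fun p : ℕ => (p:ℝ) ≤ y), (1 - (p : ℝ) ^ (-δ)) := by
            rw [← prod_const]
            refine prod_le_prod (fun _ _ => by positivity) fun p hp => ?_
            have hp2 := (Nat.prime_of_mem_primeFactors (mem_filter.1 hp).1).two_le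
            have h5 : (p : ℝ) ^ (-δ) ≤ (2 : ℝ) ^ (-δ) :=
              Real.rpow_le_rpow_of_nonpos (by norm_num) (by exact_mod_cast hp2) (by linarith)
            have h6 := half_delta hδ hδ1
            linarith
    · set Q := a.primeFactors.filter (fun p : ℕ => ¬ (p:ℝ) ≤ y) with hQ
      calc (1 / 2 : ℝ) ^ (Real.log N / Real.log y) ≤ (1 / 2 : ℝ) ^ Q.card := by
            rw [← Real.rpow_natCast (1 / 2 : ℝ)]
            refine Real.rpow_le_rpow_of_exponent_ge (by norm_num) (by norm_num) ?_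
            have hlogy : 0 < Real.log y := Real.log_pos hy
            rw [le_div_iff₀ hlogy, ← Real.log_pow]
            refine Real.log_le_log (by positivity) ?_
            have h2 : ∏ p ∈ Q, p ∣ a :=
              (prod_dvd_prod_of_subset _ _ _ (filter_subset _ _)).trans
                (Nat.prod_primeFactors_dvd a)
            have h3 : ∏ p ∈ Q, p ≤ N := (Nat.le_of_dvd ha h2).trans haN
            calc y ^ Q.card = ∏ p ∈ Q, y := by rw [prod_const]
              _ ≤ ∏ p ∈ Q, (p:ℝ) := by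
                  refine prod_le_prod (fun _ _ => by linarith) fun p hp => ?_
                  exact (not_le.1 (mem_filter.1 hp).2).le
              _ = ((∏ p ∈ Q, p : ℕ) : ℝ) := by push_cast; rfl
              _ ≤ N := Nat.cast_le.2 h3
        _ ≤ ∏ p ∈ Q, (1 - (p : ℝ) ^ (-δ)) := by
            rw [← prod_const]
            refine prod_le_prod (fun _ _ => by positivity) fun p hp => ?_
            have h5 : (p : ℝ) ^ (-δ) ≤ y ^ (-δ) :=
              Real.rpow_le_rpow_of_nonpos (by linarith) (not_le.1 (mem_filter.1 hp).2).le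
                (by linarith)
            linarith
    · have := (hx p (mem_filter.1 hp).1).2
      linarith
  have h5 : 0 ≤ ∏ p ∈ a.primeFactors, (1 - (p : ℝ) ^ (-δ)) :=
    prod_nonneg fun p hp => by
      have := (hx p hp).2
      linarith
  calc (N : ℝ) ^ (-δ) * (δ / 2) ^ y * (1 / 2) ^ (Real.log N / Real.log y)
      = ((δ / 2) ^ y * (1 / 2) ^ (Real.log N / Real.log y)) * (N : ℝ) ^ (-δ) := by ring
    _ ≤ (∏ p ∈ a.primeFactors, (1 - (p : ℝ) ^ (-δ))) * (a : ℝ) ^ (-δ) :=
        mul_le_mul h4 h3 (by positivity) h5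

/-- the number of prime factors -/
theorem card_primeFactors_le {y : ℝ} (hy : 1 < y) {a N : ℕ} (ha : 0 < a) (haN : a ≤ N) :
    (a.primeFactors.card : ℝ) ≤ y + Real.log N / Real.log y := by
  have h0 := card_filter_add_card_filter_not (s := a.primeFactors) (fun p : ℕ => (p:ℝ) ≤ y)
  set Q := a.primeFactors.filter (fun p : ℕ => ¬ (p:ℝ) ≤ y) with hQ
  have h1 : ((a.primeFactors.filter (fun p : ℕ => (p:ℝ) ≤ y)).card : ℝ) ≤ y := by
    have h2 : a.primeFactors.filter (fun p : ℕ => (p:ℝ) ≤ y) ⊆ Icc 1 ⌊y⌋₊ := by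
      intro p hp
      rw [mem_filter] at hp
      exact mem_Icc.2 ⟨(Nat.prime_of_mem_primeFactors hp.1).one_lt.le,
        Nat.le_floor hp.2⟩
    have h3 := card_le_card h2
    rw [Nat.card_Icc] at h3
    calc (((a.primeFactors.filter (fun p : ℕ => (p:ℝ) ≤ y)).card : ℕ) : ℝ)
        ≤ (⌊y⌋₊ : ℝ) := by
          exact_mod_cast (by omega :
            (a.primeFactors.filter (fun p : ℕ => (p:ℝ) ≤ y)).card ≤ ⌊y⌋₊)
      _ ≤ y := Nat.floor_le (by linarith)
  have h2 : (Q.card : ℝ) ≤ Real.log N / Real.log y := by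
    have hlogy : 0 < Real.log y := Real.log_pos hy
    rw [le_div_iff₀ hlogy, ← Real.log_pow]
    refine Real.log_le_log (by positivity) ?_
    have h2 : ∏ p ∈ Q, p ∣ a :=
      (prod_dvd_prod_of_subset _ _ _ (filter_subset _ _)).trans
        (Nat.prod_primeFactors_dvd a)
    have h3 : ∏ p ∈ Q, p ≤ N := (Nat.le_of_dvd ha h2).trans haN
    calc y ^ Q.card = ∏ p ∈ Q, y := by rw [prod_const]
      _ ≤ ∏ p ∈ Q, (p:ℝ) := by
          refine prod_le_prod (fun _ _ => by linarith) fun p hp => ?_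
          exact (not_le.1 (mem_filter.1 hp).2).le
      _ = ((∏ p ∈ Q, p : ℕ) : ℝ) := by push_cast; rfl
      _ ≤ N := Nat.cast_le.2 h3
  have h3 : ((a.primeFactors.filter (fun p : ℕ => (p:ℝ) ≤ y)).card : ℝ) + Q.card =
      a.primeFactors.card := by exact_mod_cast h0
  linarith

theorem numeric : ∀ᶠ t : ℝ in Filter.atTop,
    2 ≤ t ∧ 2 * t ^ 2 ≤ Real.exp (1 / 2 * t) := by
  have h := (isLittleO_pow_exp_pos_mul_atTop (k := 2) (show (0:ℝ) < 1 / 2 by norm_num)).bound
      (show (0:ℝ) < 1 / 2 by norm_num)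
  filter_upwards [h, Filter.eventually_ge_atTop (2:ℝ)] with t ht ht2
  rw [Real.norm_of_nonneg (by positivity), Real.norm_of_nonneg (Real.exp_pos _).le] at ht
  exact ⟨ht2, by linarith⟩

theorem bound_N {r d : ℕ} (hd : 1 ≤ d) (hr : 1 ≤ r) :
    ∃ N₀ : ℕ, ∀ N : ℕ, N₀ ≤ N → ∀ A : Finset ℕ, A ⊆ Icc 1 N → FewTraces d A →
      (¬ ∃ S : Finset ℕ, S ⊆ A ∧ S.card = r ∧ GcdSunflower S) →
      (A.card : ℝ) ≤
        (N : ℝ) ^ ((3 + 3 * Real.log (960 * (d : ℝ) * r)) / Real.log (Real.log N)) := by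
  have hd' : (1 : ℝ) ≤ d := by exact_mod_cast hd
  have hr' : (1 : ℝ) ≤ r := by exact_mod_cast hr
  have hdr : (1 : ℝ) ≤ d * r := by nlinarith
  set c : ℝ := 480 * (d : ℝ) * r with hc
  have hc1 : 480 ≤ c := by rw [hc]; nlinarith
  have h2c : 960 * (d : ℝ) * r = 2 * c := by rw [hc]; ring
  rw [h2c]
  have hlogc : 0 ≤ Real.log (2 * c) := Real.log_nonneg (by linarith)
  have hT : Filter.Tendsto (fun N : ℕ => Real.log (Real.log (N:ℝ))) Filter.atTop Filter.atTop :=
    Real.tendsto_log_atTop.comp (Real.tendsto_log_atTop.comp tendsto_natCast_atTop_atTop)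
  obtain ⟨N₀, hN₀⟩ := Filter.eventually_atTop.1 (hT.eventually numeric)
  refine ⟨max N₀ 3, fun N hN A hAN htr hfree => ?_⟩
  obtain ⟨ht2, hnum⟩ := hN₀ N ((le_max_left _ _).trans hN)
  have hN3 : 3 ≤ N := (le_max_right _ _).trans hN
  have hNr : (3:ℝ) ≤ N := by exact_mod_cast hN3
  set t := Real.log (Real.log (N:ℝ)) with ht
  set L := Real.log (N:ℝ) with hL
  have hlog2 : 0 < Real.log 2 := Real.log_pos (by norm_num)
  have hlog2' : Real.log 2 < 0.7 := by
    have := Real.log_two_lt_d9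
    linarith
  have hlog2'' : 0.5 < Real.log 2 := by
    have := Real.log_two_gt_d9
    linarith
  have hL0 : 0 < L := Real.log_pos (by linarith)
  have hexpt : Real.exp t = L := Real.exp_log hL0
  have ht0 : 0 < t := by linarith
  have hA : ∀ a ∈ A, 0 < a := fun a ha => (mem_Icc.1 (hAN ha)).1
  have hAle : ∀ a ∈ A, a ≤ N := fun a ha => (mem_Icc.1 (hAN ha)).2
  -- parameters
  set y : ℝ := Real.exp (1 / 2 * t) with hy
  have hlogy : Real.log y = 1 / 2 * t := Real.log_exp _
  have hy1 : 1 < y := by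
    rw [hy, Real.one_lt_exp_iff]
    linarith
  have hyy : y * y = L := by
    rw [hy, ← Real.exp_add, ← hexpt]
    congr 1
    ring
  set δ : ℝ := 2 * Real.log 2 / t with hδ
  have hδ0 : 0 < δ := by positivity
  have hδ1 : δ ≤ 1 := by
    rw [hδ, div_le_one ht0]
    linarith
  have hyδ : y ^ (-δ) ≤ 1 / 2 := by
    rw [hy, ← Real.exp_mul]
    have e1 : 1 / 2 * t * -δ = -Real.log 2 := by
      rw [hδ]
      field_simp
    rw [e1, Real.exp_neg, Real.exp_log (by norm_num)]
    norm_num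
  set M : ℝ := L / Real.log y with hM
  have hM' : M = 2 * L / t := by
    rw [hM, hlogy]
    field_simp
  have hM0 : 0 ≤ M := by rw [hM']; positivity
  -- the inequality
  have h1 := weighted (m := ⌊y + M⌋₊) hd hr hA (fun a ha => Nat.le_floor
    (card_primeFactors_le hy1 (hA a ha) (hAle a ha))) htr hfree (wN δ) (wN_nonneg hδ0)
    (wN_sum hδ0)
  have h2 : (A.card : ℝ) * ((N : ℝ) ^ (-δ) * (δ / 2) ^ y * (1 / 2) ^ M) ≤ c ^ (y + M) := by
    have h3 : (A.card : ℝ) * ((N : ℝ) ^ (-δ) * (δ / 2) ^ y * (1 / 2) ^ M) ≤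
        ∑ a ∈ A, ∏ p ∈ a.primeFactors, wN δ p (a.factorization p) := by
      rw [← nsmul_eq_mul, ← sum_const]
      exact sum_le_sum fun a ha => prod_wN hδ0 hδ1 hy1 hyδ (hA a ha) (hAle a ha)
    refine h3.trans (h1.trans ?_)
    rw [← hc, ← Real.rpow_natCast]
    exact Real.rpow_le_rpow_of_exponent_le (by linarith) (Nat.floor_le (by positivity))
  have hN0 : (0 : ℝ) < N := by linarith
  -- in terms of exponentials
  have h3 : (N : ℝ) ^ (-δ) * (δ / 2) ^ y * (1 / 2) ^ M =
      Real.exp (-(L * δ + y * Real.log (2 / δ) + M * Real.log 2)) := by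
    rw [Real.rpow_def_of_pos hN0, Real.rpow_def_of_pos (by positivity),
      Real.rpow_def_of_pos (by norm_num), ← Real.exp_add, ← Real.exp_add]
    congr 1
    have e1 : Real.log (δ / 2) = -Real.log (2 / δ) := by
      rw [← Real.log_inv]
      congr 1
      rw [inv_div]
    have e2 : Real.log (1 / 2) = -Real.log 2 := by
      rw [one_div, Real.log_inv]
    rw [e1, e2]
    ring
  have h4 : c ^ (y + M) = Real.exp ((y + M) * Real.log c) := by
    rw [Real.rpow_def_of_pos (by linarith), mul_comm]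
  rw [h3, h4] at h2
  have h5 : (A.card : ℝ) ≤ Real.exp ((y + M) * Real.log c +
      (L * δ + y * Real.log (2 / δ) + M * Real.log 2)) := by
    rw [Real.exp_add]
    have h6 : Real.exp (-(L * δ + y * Real.log (2 / δ) + M * Real.log 2)) *
        Real.exp (L * δ + y * Real.log (2 / δ) + M * Real.log 2) = 1 := by
      rw [← Real.exp_add, neg_add_cancel, Real.exp_zero]
    have h7 := mul_le_mul_of_nonneg_right h2
      (Real.exp_pos (L * δ + y * Real.log (2 / δ) + M * Real.log 2)).le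
    rw [mul_assoc, h6, mul_one] at h7
    exact h7
  refine h5.trans ?_
  rw [Real.rpow_def_of_pos hN0]
  refine Real.exp_le_exp.2 ?_
  -- numerics
  have hyLt : y ≤ L / t := by
    rw [le_div_iff₀ ht0, ← hyy]
    have : t ≤ y := by nlinarith
    nlinarith
  have hlog2d : y * Real.log (2 / δ) ≤ L / t := by
    have e1 : 2 / δ = t / Real.log 2 := by
      rw [hδ]
      field_simp
    have e2 : Real.log (2 / δ) ≤ 2 * t := by
      rw [e1]
      have h8 : Real.log (t / Real.log 2) ≤ t / Real.log 2 := by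
        have := Real.log_le_sub_one_of_pos (show 0 < t / Real.log 2 by positivity)
        linarith
      have h9 : t / Real.log 2 ≤ 2 * t := by
        rw [div_le_iff₀ hlog2]
        nlinarith
      linarith
    rw [le_div_iff₀ ht0, ← hyy]
    have h10 : y * Real.log (2 / δ) * t ≤ y * (2 * t) * t := by
      refine mul_le_mul_of_nonneg_right (mul_le_mul_of_nonneg_left e2 (by linarith)) ht0.le
    have h11 : y * (2 * t) * t = y * (2 * t ^ 2) := by ring
    rw [h11] at h10
    exact h10.trans (mul_le_mul_of_nonneg_left hnum (by linarith))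
  have hLδ : L * δ = 2 * Real.log 2 * (L / t) := by
    rw [hδ]
    ring
  have hML : M = 2 * (L / t) := by rw [hM']; ring
  have hlogcc : Real.log (2 * c) = Real.log 2 + Real.log c := by
    rw [Real.log_mul (by norm_num) (by linarith)]
  have hlogc0 : 0 ≤ Real.log c := Real.log_nonneg (by linarith)
  set q := L / t with hq
  have hq0 : 0 < q := by positivity
  have h12 : L * ((3 + 3 * Real.log (2 * c)) / t) = q * (3 + 3 * Real.log (2 * c)) := by
    rw [hq]
    ring
  rw [h12, hlogcc, hML, hLδ]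
  have h13 : y * Real.log c ≤ q * Real.log c := mul_le_mul_of_nonneg_right hyLt hlogc0
  have h14 : (y + 2 * q) * Real.log c = y * Real.log c + 2 * (q * Real.log c) := by ring
  rw [h14]
  nlinarith

end Pool.Agent.Helper17.VCS
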